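import Mathlib
set_option autoImplicit false
open MeasureTheory Set
open scoped ENNReal

namespace H843CM

/-- `n` random vectors uniform on `C` with constant sum -/
def CM (d n : ℕ) (C : Set (Fin d → ℝ)) : Prop :=
  ∃ P : Measure (Fin n → (Fin d → ℝ)), IsProbabilityMeasure P ∧
    (∀ i : Fin n, P.map (fun x : Fin n → (Fin d → ℝ) => x i) = (volume C)⁻¹ • volume.restrict C) ∧
    ∃ c : Fin d → ℝ, ∀ᵐ x ∂P, (∑ i, x i) = c

/-- affine invariance -/
theorem CM_affine {d n : ℕ} (v : Fin d → ℝ) (L : (Fin d → ℝ) ≃ₗ[ℝ] (Fin d → ℝ)) (C : Set (Fin d → ℝ))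
    (h : CM d n C) : CM d n ((fun x => v + L x) '' C) := by
  obtain ⟨P, hP, hm, c, hc⟩ := h
  have hLc : Continuous L := L.toLinearMap.continuous_of_finiteDimensional
  let e : (Fin d → ℝ) ≃ᵐ (Fin d → ℝ) :=
    (L.toContinuousLinearEquiv.toHomeomorph.trans (Homeomorph.addLeft v)).toMeasurableEquiv
  have he : ∀ x, e x = v + L x := fun x => rfl
  have hefun : (e : (Fin d → ℝ) → (Fin d → ℝ)) = fun x => v + L x := rfl
  have hT : Measurable (fun x : Fin d → ℝ => v + L x) := e.measurable
  have hdet : LinearMap.det (L : (Fin d → ℝ) →ₗ[ℝ] (Fin d → ℝ)) ≠ 0 := L.isUnit_det'.ne_zero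
  set k : ℝ≥0∞ := ENNReal.ofReal |(LinearMap.det (L : (Fin d → ℝ) →ₗ[ℝ] (Fin d → ℝ)))⁻¹| with hk
  have hk0 : k ≠ 0 := by
    rw [hk]
    simp only [ne_eq, ENNReal.ofReal_eq_zero, not_le]
    exact abs_pos.2 (inv_ne_zero hdet)
  have hkt : k ≠ ⊤ := ENNReal.ofReal_ne_top
  have hvol : (volume : Measure (Fin d → ℝ)).map e = k • volume := by
    have h1 : (volume : Measure (Fin d → ℝ)).map (L : (Fin d → ℝ) →ₗ[ℝ] (Fin d → ℝ)) = k • volume :=
      Real.map_linearMap_volume_pi_eq_smul_volume_pi hdet
    have h2 : (volume : Measure (Fin d → ℝ)).map (fun x => v + x) = volume :=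
      map_add_left_eq_self volume v
    have h3 : (e : (Fin d → ℝ) → (Fin d → ℝ)) = (fun x => v + x) ∘ (L : (Fin d → ℝ) →ₗ[ℝ] (Fin d → ℝ)) := rfl
    have hLm : Measurable (L : (Fin d → ℝ) →ₗ[ℝ] (Fin d → ℝ)) := hLc.measurable
    rw [h3, ← Measure.map_map (measurable_const_add v) hLm, h1, Measure.map_smul, h2]
  have hpre : e ⁻¹' (e '' C) = C := e.injective.preimage_image C
  have hr : (volume.restrict C).map e = k • volume.restrict (e '' C) := by
    have := e.restrict_map volume (e '' C)
    rw [hpre] at this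
    rw [← this, hvol, Measure.restrict_smul]
  have hC : volume C = k * volume (e '' C) := by
    have h1 : (volume.map e) (e '' C) = volume C := by
      rw [e.map_apply, hpre]
    rw [← h1, hvol]; rfl
  have hinv : (volume C)⁻¹ * k = (volume (e '' C))⁻¹ := by
    rw [hC, ENNReal.mul_inv (Or.inl hk0) (Or.inl hkt), mul_comm, ← mul_assoc,
      ENNReal.mul_inv_cancel hk0 hkt, one_mul]
  have hG : Measurable (fun (x : Fin n → (Fin d → ℝ)) (i : Fin n) => v + L (x i)) :=
    measurable_pi_lambda _ fun i => hT.comp (measurable_pi_apply i)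
  refine ⟨P.map (fun x i => v + L (x i)), Measure.isProbabilityMeasure_map hG.aemeasurable, ?_, ?_⟩
  · intro i
    rw [Measure.map_map (measurable_pi_apply i) hG]
    have h1 : ((fun x : Fin n → (Fin d → ℝ) => x i) ∘ fun (x : Fin n → (Fin d → ℝ)) (i : Fin n) => v + L (x i))
        = (fun x : Fin d → ℝ => v + L x) ∘ (fun x : Fin n → (Fin d → ℝ) => x i) := rfl
    rw [h1, ← Measure.map_map hT (measurable_pi_apply i), hm i, Measure.map_smul]
    have h2 : Measure.map (fun x : Fin d → ℝ => v + L x) (volume.restrict C)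
        = k • volume.restrict (e '' C) := hr
    rw [h2, smul_smul, hinv]
    rfl
  · refine ⟨n • v + L c, ?_⟩
    rw [ae_map_iff hG.aemeasurable]
    · filter_upwards [hc] with x hx
      rw [Finset.sum_add_distrib, ← map_sum, hx]
      simp
    · apply measurableSet_eq_fun _ measurable_const
      fun_prop

/-- passing from the closure -/
theorem CM_closure {d n : ℕ} (C : Set (Fin d → ℝ)) (hC : Convex ℝ C) (h : CM d n (closure C)) :
    CM d n C := by
  have hfr : volume (frontier C) = 0 := hC.addHaar_frontier volume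
  have hae : (closure C : Set (Fin d → ℝ)) =ᵐ[volume] C := by
    apply Filter.EventuallyLE.antisymm
    · rw [MeasureTheory.ae_le_set]
      refine measure_mono_null ?_ hfr
      intro x hx
      exact ⟨hx.1, fun h => hx.2 (interior_subset h)⟩
    · exact (HasSubset.Subset.eventuallyLE subset_closure)
  have h1 : volume (closure C) = volume C := measure_congr hae
  have h2 : volume.restrict (closure C) = volume.restrict C := Measure.restrict_congr_set hae
  obtain ⟨P, hP, hm, hc⟩ := h
  refine ⟨P, hP, fun i => ?_, hc⟩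
  rw [hm i, h1, h2]

end H843CM
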