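import Mathlib

set_option autoImplicit false
open MeasureTheory Set Filter Topology
open scoped ENNReal NNReal

namespace H843CM


/-- the uniform law of a convex set, contracted slightly towards a point of the set, has density at
most `3` with respect to the uniform law -/
theorem map_contract_le {d : ℕ} (hd : 1 ≤ d) (C : Set (Fin d → ℝ)) (hC : Convex ℝ C)
    (hm : MeasurableSet C) (v : Fin d → ℝ) (hv : v ∈ C) :
    (volume.restrict C).map (fun x : Fin d → ℝ => ((d:ℝ) / (d + 1)) • x + (1 / ((d:ℝ) + 1)) • v) ≤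
      (3 : ℝ≥0∞) • volume.restrict C := by
  have hd' : (0 : ℝ) < d := by exact_mod_cast hd
  set c : ℝ := (d : ℝ) / (d + 1) with hc
  have hc0 : 0 < c := by positivity
  set w : Fin d → ℝ := (1 / ((d:ℝ) + 1)) • v with hw
  have hmeas : Measurable (fun x : Fin d → ℝ => c • x + w) := by fun_prop
  refine Measure.le_iff.2 fun B hB => ?_
  rw [Measure.map_apply hmeas hB, Measure.smul_apply, smul_eq_mul,
    Measure.restrict_apply (hmeas hB), Measure.restrict_apply hB]
  have hsub : (fun x : Fin d → ℝ => c • x + w) ⁻¹' B ∩ C ⊆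
      (fun x : Fin d → ℝ => c • x) ⁻¹' ((fun y => y + w) ⁻¹' (B ∩ C)) := by
    intro x hx
    refine ⟨hx.1, ?_⟩
    have h1 : c + 1 / ((d:ℝ) + 1) = 1 := by rw [hc]; field_simp
    exact hC hx.2 hv hc0.le (by positivity) h1
  have h3 : ENNReal.ofReal (abs (c ^ Module.finrank ℝ (Fin d → ℝ))⁻¹) ≤ 3 := by
    rw [Module.finrank_fin_fun]
    rw [show (3 : ℝ≥0∞) = ENNReal.ofReal 3 by norm_num]
    refine ENNReal.ofReal_le_ofReal ?_
    rw [abs_of_pos (by positivity), ← inv_pow]
    have h4 : c⁻¹ = 1 / (d : ℝ) + 1 := by rw [hc]; field_simp; ring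
    rw [h4]
    calc (1 / (d : ℝ) + 1) ^ d ≤ (Real.exp (1 / d)) ^ d :=
          pow_le_pow_left₀ (by positivity) (Real.add_one_le_exp _) _
      _ = Real.exp 1 := by
          rw [← Real.exp_nat_mul]; congr 1; field_simp
      _ ≤ 3 := Real.exp_one_lt_three.le
  calc volume ((fun x : Fin d → ℝ => c • x + w) ⁻¹' B ∩ C)
      ≤ volume ((fun x : Fin d → ℝ => c • x) ⁻¹' ((fun y => y + w) ⁻¹' (B ∩ C))) :=
        measure_mono hsub
    _ = ENNReal.ofReal (abs (c ^ Module.finrank ℝ (Fin d → ℝ))⁻¹) *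
        volume ((fun y => y + w) ⁻¹' (B ∩ C)) := Measure.addHaar_preimage_smul _ hc0.ne' _
    _ = ENNReal.ofReal (abs (c ^ Module.finrank ℝ (Fin d → ℝ))⁻¹) * volume (B ∩ C) := by
        rw [measure_preimage_add_right]
    _ ≤ 3 * volume (B ∩ C) := by gcongr

end H843CM
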