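import Mathlib

set_option autoImplicit false
open MeasureTheory Set Filter Topology
open scoped ENNReal NNReal

namespace H843CM

/-- from a family of vectors with the right summed law to a completely mixable coupling:
random cyclic relabelling of the coordinates. -/
theorem exists_of_family {d : ℕ} {Ω : Type} [MeasurableSpace Ω] (P : Measure Ω) [IsProbabilityMeasure P]
    {κ ι : Type} [Fintype κ] [Nonempty κ] [Fintype ι] (Y : κ → Ω → ι → (Fin d → ℝ))
    (hY : ∀ c i, Measurable (fun p => Y c p i)) (n : ℕ) (hn : 0 < n) (hcard : Fintype.card ι = n)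
    (μ : Measure (Fin d → ℝ))
    (hsum : ∑ c, ∑ i, P.map (fun p => Y c p i) = ((Fintype.card κ * n : ℕ) : ℝ≥0∞) • μ)
    (c0 : Fin d → ℝ) (hc : ∀ c, ∀ᵐ p ∂P, ∑ i, Y c p i = c0) :
    ∃ ν : Measure (Fin n → (Fin d → ℝ)), IsProbabilityMeasure ν ∧
      (∀ i : Fin n, ν.map (fun x : Fin n → (Fin d → ℝ) => x i) = μ) ∧
      ∃ c : Fin d → ℝ, ∀ᵐ x ∂ν, (∑ i, x i) = c := by
  have : NeZero n := ⟨hn.ne'⟩
  have hκ : 0 < Fintype.card κ := Fintype.card_pos
  have hN : 0 < Fintype.card κ * n := Nat.mul_pos hκ hn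
  have hn0 : ((Fintype.card κ * n : ℕ) : ℝ≥0∞) ≠ 0 := by exact_mod_cast hN.ne'
  have hnt : ((Fintype.card κ * n : ℕ) : ℝ≥0∞) ≠ ∞ := ENNReal.natCast_ne_top _
  let e : Fin n ≃ ι := (finCongr hcard.symm).trans (Fintype.equivFin ι).symm
  let Z : κ → Fin n → Ω → Fin n → (Fin d → ℝ) := fun c k p j => Y c p (e (j + k))
  have hZ : ∀ c k, Measurable (Z c k) := by
    intro c k
    apply measurable_pi_lambda
    intro j
    exact hY c _
  refine ⟨((Fintype.card κ * n : ℕ) : ℝ≥0∞)⁻¹ • ∑ c, ∑ k, P.map (Z c k), ⟨?_⟩, ?_, c0, ?_⟩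
  · rw [Measure.smul_apply, Measure.finsetSum_apply]
    have h1 : ∀ c, (∑ k, P.map (Z c k)) univ = n := by
      intro c
      rw [Measure.finsetSum_apply]
      have : ∀ k, (P.map (Z c k)) univ = 1 := by
        intro k
        rw [Measure.map_apply (hZ c k) MeasurableSet.univ]
        simp
      simp only [this, Finset.sum_const, Finset.card_univ, Fintype.card_fin, nsmul_eq_mul, mul_one]
    simp only [h1, Finset.sum_const, Finset.card_univ, nsmul_eq_mul, smul_eq_mul]
    rw [← Nat.cast_mul]
    exact ENNReal.inv_mul_cancel hn0 hnt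
  · intro i
    have hev : Measurable (fun x : Fin n → (Fin d → ℝ) => x i) := measurable_pi_apply i
    rw [Measure.map_smul, ← Measure.mapₗ_apply_of_measurable hev, map_sum]
    simp only [map_sum]
    simp only [Measure.mapₗ_apply_of_measurable hev]
    have h1 : ∀ c k, (P.map (Z c k)).map (fun x => x i) = P.map (fun p => Y c p (e (i + k))) := by
      intro c k
      rw [Measure.map_map hev (hZ c k)]
      rfl
    simp only [h1]
    have h2 : ∀ c, ∑ k : Fin n, P.map (fun p => Y c p (e (i + k))) = ∑ j, P.map (fun p => Y c p j) :=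
      fun c => Fintype.sum_equiv ((Equiv.addLeft i).trans e) _ _ (fun k => rfl)
    simp only [h2]
    rw [hsum, smul_smul, ENNReal.inv_mul_cancel hn0 hnt, one_smul]
  · apply Measure.ae_smul_measure
    rw [← Measure.sum_fintype, Measure.ae_sum_iff]
    intro c
    rw [← Measure.sum_fintype, Measure.ae_sum_iff]
    intro k
    rw [ae_map_iff (hZ c k).aemeasurable]
    · filter_upwards [hc c] with p hp
      rw [← hp]
      exact Fintype.sum_equiv ((Equiv.addRight k).trans e) _ _ (fun j => rfl)
    · exact measurableSet_eq_fun (by fun_prop) measurable_const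

end H843CM
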