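import Pool.Agent.Helper843.CM.SumMap

set_option autoImplicit false
open MeasureTheory Set ProbabilityTheory Filter Topology
open scoped ENNReal NNReal

namespace H843CM

theorem law_V_sh {d : ℕ} (l : Fin d) : Measurable (fun q : (Fin d → ℝ) × ℝ => sh l q.1 q.2) := by
  classical
  rw [measurable_pi_iff]
  intro k
  unfold sh
  simp only [Pi.add_apply, Pi.smul_apply, smul_eq_mul, Pi.single_apply]
  by_cases hk : k = l
  · simp only [hk, if_true]; fun_prop
  · simp only [hk, if_false]; fun_prop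

theorem law_V_ta {d m : ℕ} (h : ℕ) {Ω0 : Type} [MeasurableSpace Ω0]
    (D : Ω0 → (Fin d → ℝ)) (hD : Measurable D) (c0 : Fin d → ℝ) (l : Fin d) :
    Measurable (fun q : (Fin m → (Fin d → ℝ)) × Ω0 => ta h m c0 q.1 (D q.2) l) := by
  unfold ta
  have h1 : Measurable (fun q : (Fin m → (Fin d → ℝ)) × Ω0 => D q.2 l) :=
    (measurable_pi_apply l).comp (hD.comp measurable_snd)
  have h2 : Measurable (fun q : (Fin m → (Fin d → ℝ)) × Ω0 => ∑ i, q.1 i l) := by
    apply Finset.measurable_sum
    intro i _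
    exact (measurable_pi_apply l).comp ((measurable_pi_apply i).comp measurable_fst)
  fun_prop

/-- the summed law of the gadget in direction `l` does not depend on the law of `D` -/
theorem law_V {d m : ℕ} (h : ℕ) (e : ℝ) (he : (2 * (d:ℝ) + 1) * e ≤ h)
    (PX : Measure (Fin m → (Fin d → ℝ))) [IsProbabilityMeasure PX]
    {Ω0 : Type} [MeasurableSpace Ω0] (P0 : Measure Ω0) [IsProbabilityMeasure P0]
    (D : Ω0 → (Fin d → ℝ)) (hD : Measurable D)
    (hDb : ∀ᵐ ω ∂P0, ∀ l, |D ω l| ≤ e) (hD0 : ∀ l, ∫ ω, D ω l ∂P0 = 0) (c0 : Fin d → ℝ)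
    (hX : ∀ᵐ X ∂PX, ∀ l, |(∑ i, X i l) - c0 l| ≤ e) (i : Fin m) (l : Fin d)
    (B : Set (Fin d → ℝ)) (hB : MeasurableSet B) :
    (∑ a, (PX.prod (P0.prod U)).map (fun p : (Fin m → (Fin d → ℝ)) × (Ω0 × ℝ) =>
      sh l (p.1 i) (st h (ta h m c0 p.1 (D p.2.1) l) p.2.2 a))) B =
      ∫⁻ X, ka h (ta h m c0 X 0 l) {s | sh l (X i) s ∈ B} ∂PX := by
  
  set M : (Fin (2 * h) ⊕ Bool) → (Fin m → (Fin d → ℝ)) × (Ω0 × ℝ) → (Fin d → ℝ) := fun a p =>
    sh l (p.1 i) (st h (ta h m c0 p.1 (D p.2.1) l) p.2.2 a) with hM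
  have hta := law_V_ta (m := m) h D hD c0 l
  have hMm : ∀ a, Measurable (M a) := by
    intro a
    have h1 : Measurable (fun p : (Fin m → (Fin d → ℝ)) × (Ω0 × ℝ) => ta h m c0 p.1 (D p.2.1) l) :=
      by
        have hf : Measurable (fun p : (Fin m → (Fin d → ℝ)) × (Ω0 × ℝ) => (p.1, p.2.1)) := by fun_prop
        have h9 := hta.comp hf
        simp only [Function.comp_def] at h9
        exact h9
    have h2 : Measurable (fun p : (Fin m → (Fin d → ℝ)) × (Ω0 × ℝ) =>
        st h (ta h m c0 p.1 (D p.2.1) l) p.2.2 a) :=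
      by
        have h9 := (measurable_st h a).comp (h1.prodMk (measurable_snd.comp measurable_snd))
        simp only [Function.comp_def] at h9
        exact h9
    have h3 : Measurable (fun p : (Fin m → (Fin d → ℝ)) × (Ω0 × ℝ) => p.1 i) :=
      (measurable_pi_apply i).comp measurable_fst
    have h9 := (law_V_sh l).comp (h3.prodMk h2)
    simp only [Function.comp_def] at h9
    exact h9
  rw [Measure.finsetSum_apply]
  have e1 : ∀ a, (PX.prod (P0.prod U)).map (M a) B =
      ∫⁻ X, (P0.prod U) (Prod.mk X ⁻¹' (M a ⁻¹' B)) ∂PX := by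
    intro a
    rw [Measure.map_apply (hMm a) hB, Measure.prod_apply (hMm a hB)]
  rw [Finset.sum_congr rfl (fun a _ => e1 a), ← lintegral_finset_sum _ (fun a _ =>
    measurable_measure_prodMk_left (hMm a hB))]
  apply lintegral_congr_ae
  filter_upwards [hX] with X hXX
  have hτm : Measurable (fun ω => ta h m c0 X (D ω) l) := by
    have hf : Measurable (fun ω : Ω0 => ((X, ω) : (Fin m → (Fin d → ℝ)) × Ω0)) := measurable_prodMk_left
    have h9 := hta.comp hf
    simp only [Function.comp_def] at h9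
    exact h9
  have hSm : MeasurableSet {s | sh l (X i) s ∈ B} := by
    have hf : Measurable (fun s : ℝ => ((X i, s) : (Fin d → ℝ) × ℝ)) := measurable_prodMk_left
    exact ((law_V_sh l).comp hf) hB
  have hXl := abs_le.1 (hXX l)
  have hd0 : (0:ℝ) ≤ d := Nat.cast_nonneg d
  have hb : ∀ᵐ ω ∂P0, 1 ≤ ta h m c0 X (D ω) l ∧ ta h m c0 X (D ω) l ≤ 2 * h + 1 := by
    filter_upwards [hDb] with ω hω
    have hDl := abs_le.1 (hω l)
    unfold ta
    have a1 := mul_le_mul_of_nonneg_left hXl.1 hd0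
    have a2 := mul_le_mul_of_nonneg_left hXl.2 hd0
    have a3 := mul_le_mul_of_nonneg_left hDl.1 (show 0 ≤ (d:ℝ) + 1 by positivity)
    have a4 := mul_le_mul_of_nonneg_left hDl.2 (show 0 ≤ (d:ℝ) + 1 by positivity)
    constructor <;> linarith
  have hmean : ∫ ω, ta h m c0 X (D ω) l ∂P0 = ta h m c0 X 0 l := by
    have hint : Integrable (fun ω => D ω l) P0 := by
      apply Integrable.of_bound ((measurable_pi_apply l).comp hD).aestronglyMeasurable e
      filter_upwards [hDb] with ω hω
      exact hω l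
    unfold ta
    rw [integral_sub (integrable_const _) (hint.const_mul _), integral_const, integral_const_mul, hD0]
    simp
  have key := sum_map_st P0 h (fun ω => ta h m c0 X (D ω) l) hτm (hb.mono fun ω hω => hω.1)
    (hb.mono fun ω hω => hω.2)
  have key2 := congrArg (fun ν : Measure ℝ => ν {s | sh l (X i) s ∈ B}) key
  rw [Measure.finsetSum_apply] at key2
  unfold ka
  rw [← hmean, ← key2]
  apply Finset.sum_congr rfl
  intro a _
  have hmap : Measurable (fun p : Ω0 × ℝ => st h (ta h m c0 X (D p.1) l) p.2 a) :=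
    by
      have h9 := (measurable_st h a).comp ((hτm.comp measurable_fst).prodMk measurable_snd)
      simp only [Function.comp_def] at h9
      exact h9
  rw [Measure.map_apply hmap hSm]
  rfl


end H843CM
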