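import Pool.Agent.Helper843.CM.Defs

set_option autoImplicit false
open MeasureTheory Set ProbabilityTheory Filter Topology
open scoped ENNReal NNReal

namespace H843CM

/-- the bounding kernel -/
noncomputable def LVk (h : ℕ) : Measure ℝ :=
  (2:ℝ≥0∞) • U + ((2 * (h:ℝ≥0∞)) • Measure.dirac 1 + (2 * (h:ℝ≥0∞)) • Measure.dirac 0)

lemma LVk_univ (h : ℕ) : LVk h univ = 4 * h + 2 := by
  simp only [LVk, Measure.add_apply, Measure.smul_apply, smul_eq_mul, measure_univ]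
  ring

instance LVk_fin (h : ℕ) : IsFiniteMeasure (LVk h) := ⟨by
  rw [LVk_univ]
  exact ENNReal.add_lt_top.2 ⟨ENNReal.mul_lt_top (by simp) (ENNReal.natCast_lt_top h), by simp⟩⟩

lemma LVk_ae (h : ℕ) : ∀ᵐ s ∂(LVk h), s ∈ Icc (0:ℝ) 1 := by
  have h1 : (U : Measure ℝ) (Icc (0:ℝ) 1)ᶜ = 0 := by
    rw [Measure.restrict_apply measurableSet_Icc.compl]
    have : (Icc (0:ℝ) 1)ᶜ ∩ Ioc 0 1 = ∅ := by
      ext s
      simp only [mem_inter_iff, mem_compl_iff, mem_Icc, mem_Ioc, mem_empty_iff_false, iff_false]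
      rintro ⟨h1, h2, h3⟩
      exact h1 ⟨h2.le, h3⟩
    rw [this, measure_empty]
  have h2 : (Measure.dirac (1:ℝ)) (Icc (0:ℝ) 1)ᶜ = 0 := by
    rw [Measure.dirac_apply' _ measurableSet_Icc.compl]
    simp
  have h3 : (Measure.dirac (0:ℝ)) (Icc (0:ℝ) 1)ᶜ = 0 := by
    rw [Measure.dirac_apply' _ measurableSet_Icc.compl]
    simp
  show (LVk h) (Icc (0:ℝ) 1)ᶜ = 0
  simp only [LVk, Measure.add_apply, Measure.smul_apply, smul_eq_mul, h1, h2, h3, mul_zero, add_zero]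

lemma LVk_le (h : ℕ) (t : ℝ) (h1 : t - 1 ≤ 2 * h) (h2 : 2 * h + 1 - t ≤ 2 * h) (A : Set ℝ) :
    ka h t A ≤ LVk h A := by
  have e0 : ENNReal.ofReal (2 * (h:ℝ)) = 2 * (h:ℝ≥0∞) := by
    rw [ENNReal.ofReal_mul (by norm_num), ENNReal.ofReal_natCast]
    norm_num
  have e1 : ENNReal.ofReal (t - 1) ≤ 2 * (h:ℝ≥0∞) := by
    rw [← e0]; exact ENNReal.ofReal_le_ofReal h1
  have e2 : ENNReal.ofReal (2 * h + 1 - t) ≤ 2 * (h:ℝ≥0∞) := by
    rw [← e0]; exact ENNReal.ofReal_le_ofReal h2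
  simp only [ka, LVk, Measure.add_apply, Measure.smul_apply, smul_eq_mul]
  gcongr

lemma LV_sh {d : ℕ} (l : Fin d) : Measurable (fun p : (Fin d → ℝ) × ℝ => sh l p.1 p.2) := by
  refine measurable_pi_iff.2 fun j => ?_
  simp only [sh, Pi.add_apply, Pi.smul_apply, smul_eq_mul, Pi.single_apply]
  split_ifs
  · fun_prop
  · fun_prop

/-- density bound for the summed law of the gadget in direction `l` -/
theorem law_V_le {d m : ℕ} (h : ℕ) (e : ℝ) (he : (2 * (d:ℝ) + 1) * e ≤ h)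
    (PX : Measure (Fin m → (Fin d → ℝ))) [IsProbabilityMeasure PX]
    (μ : Measure (Fin d → ℝ)) [IsProbabilityMeasure μ]
    (hsum : ∑ i : Fin m, PX.map (fun X => X i) = (m : ℝ≥0∞) • μ) (c0 : Fin d → ℝ)
    (hX : ∀ᵐ X ∂PX, ∀ l, |(∑ i, X i l) - c0 l| ≤ e) (l : Fin d)
    (hμ : ∀ s ∈ Icc (0:ℝ) 1, μ.map (fun x => sh l x s) ≤ (3:ℝ≥0∞) • μ)
    (B : Set (Fin d → ℝ)) (hB : MeasurableSet B) :
    (∑ i : Fin m, ∫⁻ X, ka h (ta h m c0 X 0 l) {s | sh l (X i) s ∈ B} ∂PX) ≤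
      (4 * h + 2) * (3 * (m : ℝ≥0∞)) * μ B := by
  have step1 : ∀ i : Fin m, ∫⁻ X, ka h (ta h m c0 X 0 l) {s | sh l (X i) s ∈ B} ∂PX ≤
      ∫⁻ X, LVk h {s | sh l (X i) s ∈ B} ∂PX := by
    intro i
    refine lintegral_mono_ae ?_
    filter_upwards [hX] with X hX0
    have h1 := hX0 l
    have h2 := abs_le.1 h1
    have he0 : 0 ≤ e := (abs_nonneg _).trans h1
    have hd : (0:ℝ) ≤ d := Nat.cast_nonneg d
    have h3 : (d:ℝ) * ((∑ i, X i l) - c0 l) ≤ d * e := mul_le_mul_of_nonneg_left h2.2 hd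
    have h4 : (d:ℝ) * (-e) ≤ d * ((∑ i, X i l) - c0 l) := mul_le_mul_of_nonneg_left h2.1 hd
    have h5 : (d:ℝ) * e ≤ h := by nlinarith [mul_nonneg hd he0]
    refine LVk_le h _ ?_ ?_ _
    · simp only [ta, Pi.zero_apply, mul_zero, sub_zero]
      linarith
    · simp only [ta, Pi.zero_apply, mul_zero, sub_zero]
      linarith
  have hmeas : ∀ i : Fin m, MeasurableSet {p : (Fin m → (Fin d → ℝ)) × ℝ | sh l (p.1 i) p.2 ∈ B} := by
    intro i
    have h1 : Measurable (fun p : (Fin m → (Fin d → ℝ)) × ℝ => (p.1 i, p.2)) :=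
      ((measurable_pi_apply i).comp measurable_fst).prodMk measurable_snd
    exact ((LV_sh l).comp h1) hB
  have step2 : ∀ i : Fin m, ∫⁻ X, LVk h {s | sh l (X i) s ∈ B} ∂PX =
      ∫⁻ s, PX {X | sh l (X i) s ∈ B} ∂(LVk h) := by
    intro i
    have h1 := Measure.prod_apply (μ := PX) (ν := LVk h) (hmeas i)
    have h2 := Measure.prod_apply_symm (μ := PX) (ν := LVk h) (hmeas i)
    exact h1.symm.trans h2
  have hmeas2 : ∀ i : Fin m, Measurable (fun s => PX {X | sh l (X i) s ∈ B}) := fun i =>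
    measurable_measure_prodMk_right (hmeas i)
  calc (∑ i : Fin m, ∫⁻ X, ka h (ta h m c0 X 0 l) {s | sh l (X i) s ∈ B} ∂PX)
      ≤ ∑ i : Fin m, ∫⁻ s, PX {X | sh l (X i) s ∈ B} ∂(LVk h) := by
        refine Finset.sum_le_sum fun i _ => ?_
        rw [← step2 i]
        exact step1 i
    _ = ∫⁻ s, ∑ i : Fin m, PX {X | sh l (X i) s ∈ B} ∂(LVk h) := by
        rw [lintegral_finsetSum _ (fun i _ => hmeas2 i)]
    _ ≤ ∫⁻ s, (3 * (m : ℝ≥0∞)) * μ B ∂(LVk h) := by
        refine lintegral_mono_ae ?_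
        filter_upwards [LVk_ae h] with s hs
        have hsm : Measurable (fun x : Fin d → ℝ => sh l x s) :=
          (LV_sh l).comp (measurable_id.prodMk measurable_const)
        have hms : MeasurableSet {x : Fin d → ℝ | sh l x s ∈ B} := hsm hB
        have h1 : ∑ i : Fin m, PX {X | sh l (X i) s ∈ B}
            = (∑ i : Fin m, PX.map (fun X => X i)) {x | sh l x s ∈ B} := by
          rw [Measure.finsetSum_apply]
          refine Finset.sum_congr rfl fun i _ => ?_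
          rw [Measure.map_apply (measurable_pi_apply i) hms]
          rfl
        rw [h1, hsum, Measure.smul_apply, smul_eq_mul]
        have h2 : μ {x | sh l x s ∈ B} ≤ 3 * μ B := by
          have h3 := hμ s hs B
          rw [Measure.map_apply hsm hB,
            Measure.smul_apply, smul_eq_mul] at h3
          exact h3
        calc (m : ℝ≥0∞) * μ {x | sh l x s ∈ B} ≤ m * (3 * μ B) := by gcongr
          _ = (3 * (m : ℝ≥0∞)) * μ B := by ring
    _ = (4 * h + 2) * (3 * (m : ℝ≥0∞)) * μ B := by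
        rw [lintegral_const, LVk_univ]
        ring

end H843CM
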