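import Pool.Agent.Helper843.CM.Sampling
import Pool.Agent.Helper843.CM.Affine
import Pool.Agent.Helper843.CM.Contract
import Pool.Agent.Helper843.CM.Fam
import Pool.Agent.Helper843.CM.LawVle
import Pool.Agent.Helper843.CM.LawV

set_option autoImplicit false
open MeasureTheory Set ProbabilityTheory Filter Topology
open scoped ENNReal NNReal

namespace H843CM

/-- the gadget vectors before contraction and relabelling -/
noncomputable def Vf {d m : ℕ} (h : ℕ) (c0 : Fin d → ℝ) {Ω0 : Type} (D : Ω0 → (Fin d → ℝ)) (i : Fin m)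
    (j : Fin d × (Fin (2 * h) ⊕ Bool)) (p : (Fin m → (Fin d → ℝ)) × (Ω0 × ℝ)) : Fin d → ℝ :=
  sh j.1 (p.1 i) (st h (ta h m c0 p.1 (D p.2.1) j.1) p.2.2 j.2)

lemma measurable_ta {d m : ℕ} (h : ℕ) (c0 : Fin d → ℝ) {Ω0 : Type} [MeasurableSpace Ω0]
    (D : Ω0 → (Fin d → ℝ)) (hD : Measurable D) (l : Fin d) :
    Measurable (fun p : (Fin m → (Fin d → ℝ)) × (Ω0 × ℝ) => ta h m c0 p.1 (D p.2.1) l) := by
  unfold ta
  have h1 : Measurable (fun p : (Fin m → (Fin d → ℝ)) × (Ω0 × ℝ) => D p.2.1 l) :=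
    (measurable_pi_apply l).comp (hD.comp (measurable_fst.comp measurable_snd))
  have h2 : Measurable (fun p : (Fin m → (Fin d → ℝ)) × (Ω0 × ℝ) => ∑ i, p.1 i l) :=
    Finset.measurable_sum _ (fun i _ => (measurable_pi_apply l).comp
      ((measurable_pi_apply i).comp measurable_fst))
  exact ((h2.sub_const _).const_mul _ |>.const_sub _).sub (h1.const_mul _)

lemma measurable_Vf {d m : ℕ} (h : ℕ) (c0 : Fin d → ℝ) {Ω0 : Type} [MeasurableSpace Ω0]
    (D : Ω0 → (Fin d → ℝ)) (hD : Measurable D) (i : Fin m) (j : Fin d × (Fin (2 * h) ⊕ Bool)) :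
    Measurable (Vf h c0 D i j) := by
  have h1 := measurable_ta (m := m) h c0 D hD j.1
  have h2 : Measurable (fun p : (Fin m → (Fin d → ℝ)) × (Ω0 × ℝ) =>
      st h (ta h m c0 p.1 (D p.2.1) j.1) p.2.2 j.2) :=
    (measurable_st h j.2).comp (h1.prodMk (measurable_snd.comp measurable_snd))
  exact (LV_sh j.1).comp (((measurable_pi_apply i).comp measurable_fst).prodMk h2)

/-- the summed law of the gadget -/
noncomputable def AL {d m : ℕ} (h : ℕ) (c0 : Fin d → ℝ) (PX : Measure (Fin m → (Fin d → ℝ)))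
    {Ω0 : Type} [MeasurableSpace Ω0] (P0 : Measure Ω0) (D : Ω0 → (Fin d → ℝ)) :
    Measure (Fin d → ℝ) :=
  ∑ i : Fin m, ∑ j : Fin d × (Fin (2 * h) ⊕ Bool), (PX.prod (P0.prod U)).map (Vf h c0 D i j)

lemma AL_apply {d m : ℕ} (h : ℕ) (e : ℝ) (he : (2 * (d:ℝ) + 1) * e ≤ h)
    (PX : Measure (Fin m → (Fin d → ℝ))) [IsProbabilityMeasure PX]
    {Ω0 : Type} [MeasurableSpace Ω0] (P0 : Measure Ω0) [IsProbabilityMeasure P0]
    (D : Ω0 → (Fin d → ℝ)) (hD : Measurable D)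
    (hDb : ∀ᵐ ω ∂P0, ∀ l, |D ω l| ≤ e) (hD0 : ∀ l, ∫ ω, D ω l ∂P0 = 0) (c0 : Fin d → ℝ)
    (hX : ∀ᵐ X ∂PX, ∀ l, |(∑ i, X i l) - c0 l| ≤ e)
    (B : Set (Fin d → ℝ)) (hB : MeasurableSet B) :
    AL h c0 PX P0 D B =
      ∑ l : Fin d, ∑ i : Fin m, ∫⁻ X, ka h (ta h m c0 X 0 l) {s | sh l (X i) s ∈ B} ∂PX := by
  rw [Finset.sum_comm]
  unfold AL
  rw [Measure.finsetSum_apply]
  refine Finset.sum_congr rfl fun i _ => ?_
  rw [Fintype.sum_prod_type, Measure.finsetSum_apply]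
  refine Finset.sum_congr rfl fun l _ => ?_
  exact law_V h e he PX P0 D hD hDb hD0 c0 hX i l B hB

lemma AL_le {d m : ℕ} (h : ℕ) (e : ℝ) (he : (2 * (d:ℝ) + 1) * e ≤ h)
    (PX : Measure (Fin m → (Fin d → ℝ))) [IsProbabilityMeasure PX]
    (μ : Measure (Fin d → ℝ)) [IsProbabilityMeasure μ]
    (hsum : ∑ i : Fin m, PX.map (fun X => X i) = (m : ℝ≥0∞) • μ)
    {Ω0 : Type} [MeasurableSpace Ω0] (P0 : Measure Ω0) [IsProbabilityMeasure P0]
    (D : Ω0 → (Fin d → ℝ)) (hD : Measurable D)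
    (hDb : ∀ᵐ ω ∂P0, ∀ l, |D ω l| ≤ e) (hD0 : ∀ l, ∫ ω, D ω l ∂P0 = 0) (c0 : Fin d → ℝ)
    (hX : ∀ᵐ X ∂PX, ∀ l, |(∑ i, X i l) - c0 l| ≤ e)
    (hμ : ∀ l : Fin d, ∀ s ∈ Icc (0:ℝ) 1, μ.map (fun x => sh l x s) ≤ (3:ℝ≥0∞) • μ) :
    AL h c0 PX P0 D ≤ ((d * ((4 * h + 2) * (3 * m)) : ℕ) : ℝ≥0∞) • μ := by
  rw [Measure.le_iff]
  intro B hB
  rw [AL_apply h e he PX P0 D hD hDb hD0 c0 hX B hB]
  calc _ ≤ ∑ l : Fin d, (4 * h + 2) * (3 * (m : ℝ≥0∞)) * μ B :=
        Finset.sum_le_sum fun l _ => law_V_le h e he PX μ hsum c0 hX l (hμ l) B hB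
    _ = _ := by
        rw [Finset.sum_const, Finset.card_univ, Fintype.card_fin, nsmul_eq_mul,
          Measure.smul_apply, smul_eq_mul]
        push_cast
        ring

lemma AL_univ {d m : ℕ} (h : ℕ) (PX : Measure (Fin m → (Fin d → ℝ))) [IsProbabilityMeasure PX]
    {Ω0 : Type} [MeasurableSpace Ω0] (P0 : Measure Ω0) [IsProbabilityMeasure P0]
    (D : Ω0 → (Fin d → ℝ)) (hD : Measurable D) (c0 : Fin d → ℝ) :
    AL h c0 PX P0 D univ = ((m * (d * (2 * h + 2)) : ℕ) : ℝ≥0∞) := by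
  unfold AL
  rw [Measure.finsetSum_apply]
  have h1 : ∀ i : Fin m, (∑ j : Fin d × (Fin (2 * h) ⊕ Bool),
      (PX.prod (P0.prod U)).map (Vf h c0 D i j)) univ = ((d * (2 * h + 2) : ℕ) : ℝ≥0∞) := by
    intro i
    rw [Measure.finsetSum_apply]
    have h2 : ∀ j, ((PX.prod (P0.prod U)).map (Vf h c0 D i j)) univ = 1 := by
      intro j
      rw [Measure.map_apply (measurable_Vf h c0 D hD i j) MeasurableSet.univ]
      simp
    simp only [h2, Finset.sum_const, Finset.card_univ, nsmul_eq_mul, mul_one]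
    simp
  simp only [h1, Finset.sum_const, Finset.card_univ, Fintype.card_fin, nsmul_eq_mul]
  push_cast
  ring

/-- the sum of the states -/
lemma sum_ite_lt (n : ℕ) (k : ℤ) (h0 : 0 ≤ k) (hn : k ≤ n) :
    ∑ j : Fin n, (if ((j : ℕ) : ℤ) < k then (1:ℝ) else 0) = k := by
  lift k to ℕ using h0
  have hn' : k ≤ n := by exact_mod_cast hn
  rw [Finset.sum_ite]
  simp only [Finset.sum_const, Finset.sum_const_zero, add_zero, nsmul_eq_mul, mul_one]
  have : (Finset.univ.filter (fun j : Fin n => ((j : ℕ) : ℤ) < (k:ℤ))).card = k := by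
    have h1 : (Finset.univ.filter (fun j : Fin n => ((j : ℕ) : ℤ) < (k:ℤ))) =
        (Finset.univ.filter (fun j : Fin n => (j : ℕ) < k)) := by
      ext j; simp
    rw [h1, Fin.card_filter_val_lt, min_eq_right hn']
  rw [this]; simp

lemma sum_st (h : ℕ) (t u : ℝ) (hp : u ∈ Ioc (0:ℝ) 1) (h1 : 1 ≤ t) (h2 : t ≤ 2 * h + 1) :
    ∑ i, st h t u i = t := by
  rw [Fintype.sum_sum_type]
  simp only [st, Fintype.sum_bool]
  rw [sum_ite_lt]
  · have := Int.self_sub_floor (t - u)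
    rw [← this]; ring
  · apply Int.floor_nonneg.mpr
    linarith [hp.2]
  · have : (⌊t - u⌋ : ℝ) < 2 * h + 1 := by
      refine (Int.floor_le _).trans_lt ?_
      linarith [hp.1]
    have h3 : ⌊t - u⌋ < (2 * h + 1 : ℤ) := by exact_mod_cast this
    push_cast
    omega

/-- the sum of the gadget vectors -/
lemma sum_Vf {d m : ℕ} (h : ℕ) (c0 : Fin d → ℝ) {Ω0 : Type} (D : Ω0 → (Fin d → ℝ))
    (σ : Fin m ≃ Fin d × (Fin (2 * h) ⊕ Bool)) (p : (Fin m → (Fin d → ℝ)) × (Ω0 × ℝ))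
    (hu : p.2.2 ∈ Ioc (0:ℝ) 1) (h1 : ∀ l, 1 ≤ ta h m c0 p.1 (D p.2.1) l)
    (h2 : ∀ l, ta h m c0 p.1 (D p.2.1) l ≤ 2 * h + 1) (l : Fin d) :
    (∑ i, Vf h c0 D i (σ i) p) l =
      ((d:ℝ) / (d + 1)) * (∑ i, p.1 i l) + (1 / ((d:ℝ) + 1)) * ta h m c0 p.1 (D p.2.1) l := by
  rw [Finset.sum_apply]
  simp only [Vf, sh, Pi.add_apply, Pi.smul_apply, smul_eq_mul]
  rw [Finset.sum_add_distrib, ← Finset.mul_sum, ← Finset.mul_sum]
  congr 2
  rw [Equiv.sum_comp σ (fun j => (Pi.single j.1 (st h (ta h m c0 p.1 (D p.2.1) j.1) p.2.2 j.2) :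
    Fin d → ℝ) l), Fintype.sum_prod_type, Finset.sum_eq_single l]
  · simp only [Pi.single_eq_same]
    exact sum_st h _ _ hu (h1 l) (h2 l)
  · intro b _ hb
    apply Finset.sum_eq_zero
    intro a _
    exact Pi.single_eq_of_ne (fun hh => hb hh.symm) _
  · intro hh; exact absurd (Finset.mem_univ l) hh

/-- the main construction, in normal position -/
theorem core {d : ℕ} (hd : 1 ≤ d) (C : Set (Fin d → ℝ)) (hC : Convex ℝ C) (hm : MeasurableSet C)
    (h0 : (0 : Fin d → ℝ) ∈ C) (h1 : ∀ i, (Pi.single i 1 : Fin d → ℝ) ∈ C)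
    (hb : C ⊆ Metric.closedBall 0 1) (hv : 0 < volume C) (n : ℕ)
    (hn : 12 * d * (4 * d ^ 2 + 14 * d + 7) ≤ n) : CM d n C := by
  classical
  -- parameters
  set h : ℕ := (2 * d + 1) * (2 * d + 6) with hh
  set m : ℕ := d * (2 * h + 2) with hmdef
  have hm0 : 0 < m := by
    rw [hmdef]; positivity
  have hn6 : 6 * m ≤ n := by
    have : 6 * m = 12 * d * (4 * d ^ 2 + 14 * d + 7) := by
      rw [hmdef, hh]; ring
    omega
  set e : ℝ := 2 * (d:ℝ) + 6 with he
  have hee : (2 * (d:ℝ) + 1) * e ≤ h := by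
    rw [he, hh]; push_cast; exact le_rfl
  -- the uniform law
  have hvt : volume C ≠ ⊤ :=
    ne_top_of_le_ne_top (Metric.isBounded_closedBall.measure_lt_top).ne (measure_mono hb)
  set μ : Measure (Fin d → ℝ) := (volume C)⁻¹ • volume.restrict C with hμdef
  have hμp : IsProbabilityMeasure μ := ⟨by
    rw [hμdef, Measure.smul_apply, Measure.restrict_apply MeasurableSet.univ, univ_inter,
      smul_eq_mul, ENNReal.inv_mul_cancel hv.ne' hvt]⟩
  have hμb : μ (Metric.closedBall 0 1)ᶜ = 0 := by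
    rw [hμdef, Measure.smul_apply, Measure.restrict_apply Metric.isClosed_closedBall.measurableSet.compl]
    have : (Metric.closedBall (0 : Fin d → ℝ) 1)ᶜ ∩ C = ∅ := by
      rw [← Set.disjoint_iff_inter_eq_empty]
      exact Set.disjoint_compl_left_iff_subset.mpr hb
    rw [this]; simp
  have hμ3 : ∀ l : Fin d, ∀ s ∈ Icc (0:ℝ) 1, μ.map (fun x => sh l x s) ≤ (3:ℝ≥0∞) • μ := by
    intro l s hs
    have hsC : (Pi.single l s : Fin d → ℝ) ∈ C := by
      have := hC h0 (h1 l) (show (0:ℝ) ≤ 1 - s by linarith [hs.2]) hs.1 (by ring)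
      rw [smul_zero, zero_add, ← Pi.single_smul', smul_eq_mul, mul_one] at this
      exact this
    have := map_contract_le hd C hC hm _ hsC
    rw [hμdef, Measure.map_smul, smul_comm]
    rw [Measure.le_iff] at this ⊢
    intro B hB
    have h5 := this B hB
    simp only [Measure.smul_apply, smul_eq_mul] at h5 ⊢
    exact mul_le_mul_right h5 _
  -- the auxiliary sample
  obtain ⟨PX, hPX, hsumX, hdevX⟩ := exists_sampling μ hμb m hm0
  set c0 : Fin d → ℝ := (m:ℝ) • (∫ z, z ∂μ) with hc0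
  have hcoord : ∀ {k : ℕ} (P : Measure (Fin k → (Fin d → ℝ))) (c : Fin d → ℝ),
      (∀ᵐ y ∂P, ‖(∑ i, y i) - c‖ ≤ 2 * (d:ℝ) + 6) → ∀ᵐ y ∂P, ∀ l, |(∑ i, y i l) - c l| ≤ e := by
    intro k P c hP
    filter_upwards [hP] with y hy l
    have h5 := (norm_le_pi_norm ((∑ i, y i) - c) l).trans hy
    rw [Real.norm_eq_abs, Pi.sub_apply, Finset.sum_apply] at h5
    exact h5
  have hX := hcoord PX c0 hdevX
  -- the gadget law
  let D0 : Unit → (Fin d → ℝ) := fun _ => 0
  let P00 : Measure Unit := Measure.dirac ()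
  have hD0m : Measurable D0 := measurable_const
  have he0 : 0 ≤ e := by rw [he]; positivity
  have hD0b : ∀ᵐ ω ∂P00, ∀ l, |D0 ω l| ≤ e := Eventually.of_forall (fun ω l => by simpa [D0] using he0)
  have hD00 : ∀ l, ∫ ω, D0 ω l ∂P00 = 0 := fun l => by simp [D0]
  set A0 : Measure (Fin d → ℝ) := AL h c0 PX P00 D0 with hA0
  have hmne : (m : ℝ≥0∞) ≠ 0 := by exact_mod_cast hm0.ne'
  have hmt : (m : ℝ≥0∞) ≠ ∞ := ENNReal.natCast_ne_top m
  set G0 : Measure (Fin d → ℝ) := (m : ℝ≥0∞)⁻¹ • A0 with hG0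
  have hmG : (m : ℝ≥0∞) • G0 = A0 := by
    rw [hG0, smul_smul, ENNReal.mul_inv_cancel hmne hmt, one_smul]
  have hG0univ : G0 univ = m := by
    rw [hG0, Measure.smul_apply, hA0, AL_univ h PX P00 D0 hD0m c0, smul_eq_mul, ← hmdef]
    push_cast
    rw [← mul_assoc, ENNReal.inv_mul_cancel hmne hmt, one_mul]
  have hG0fin : IsFiniteMeasure G0 := ⟨by rw [hG0univ]; exact ENNReal.natCast_lt_top m⟩
  have hG0μ : G0 ≤ (n : ℝ≥0∞) • μ := by
    have h5 := AL_le h e hee PX μ hsumX P00 D0 hD0m hD0b hD00 c0 hX hμ3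
    rw [← hA0] at h5
    rw [Measure.le_iff] at h5 ⊢
    intro B hB
    have h6 := h5 B hB
    rw [hG0]
    simp only [Measure.smul_apply, smul_eq_mul] at h6 ⊢
    have h7 : d * ((4 * h + 2) * (3 * m)) ≤ m * n := by
      calc d * ((4 * h + 2) * (3 * m)) ≤ m * (6 * m) := by
            rw [hmdef]; nlinarith [Nat.zero_le h, Nat.zero_le d, Nat.zero_le (d * h), Nat.zero_le (d * (d * (2 * h + 2)))]
        _ ≤ m * n := Nat.mul_le_mul_left m hn6
    calc (m : ℝ≥0∞)⁻¹ * A0 B ≤ (m : ℝ≥0∞)⁻¹ * (((m * n : ℕ) : ℝ≥0∞) * μ B) := by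
          gcongr
          refine h6.trans ?_
          gcongr
      _ = n * μ B := by
          push_cast
          rw [← mul_assoc, ← mul_assoc, ENNReal.inv_mul_cancel hmne hmt, one_mul]
  -- the remainder
  obtain ⟨k, hk⟩ : ∃ k, n = m + k := ⟨n - m, by omega⟩
  have hk0 : 0 < k := by omega
  have hkne : (k : ℝ≥0∞) ≠ 0 := by exact_mod_cast hk0.ne'
  have hkt : (k : ℝ≥0∞) ≠ ∞ := ENNReal.natCast_ne_top k
  set Mrem : Measure (Fin d → ℝ) := (n : ℝ≥0∞) • μ - G0 with hMrem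
  have hRA : Mrem + G0 = (n : ℝ≥0∞) • μ := Measure.sub_add_cancel_of_le hG0μ
  have hMremuniv : Mrem univ = k := by
    have h5 : Mrem univ + G0 univ = n := by
      rw [← Measure.add_apply, hRA]; simp
    rw [hG0univ, hk, add_comm] at h5
    push_cast at h5
    exact (ENNReal.add_right_inj (ENNReal.natCast_ne_top m)).mp h5
  set Q : Measure (Fin d → ℝ) := (k : ℝ≥0∞)⁻¹ • Mrem with hQ
  have hQk : (k : ℝ≥0∞) • Q = Mrem := by
    rw [hQ, smul_smul, ENNReal.mul_inv_cancel hkne hkt, one_smul]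
  have hQp : IsProbabilityMeasure Q := ⟨by
    rw [hQ, Measure.smul_apply, hMremuniv, smul_eq_mul, ENNReal.inv_mul_cancel hkne hkt]⟩
  have hQb : Q (Metric.closedBall 0 1)ᶜ = 0 := by
    have h5 : Mrem ≤ (n : ℝ≥0∞) • μ := by
      rw [← hRA]; exact Measure.le_add_right le_rfl
    have h6 := h5 (Metric.closedBall 0 1)ᶜ
    rw [Measure.smul_apply, hμb] at h6
    rw [hQ, Measure.smul_apply]
    have h7 : Mrem (Metric.closedBall 0 1)ᶜ = 0 := by simpa using h6
    rw [h7]; simp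
  obtain ⟨PW, hPW, hsumW, hdevW⟩ := exists_sampling Q hQb k hk0
  set r0 : Fin d → ℝ := (k:ℝ) • (∫ z, z ∂Q) with hr0
  have hW := hcoord PW r0 hdevW
  -- the deviation
  let D : (Fin k → (Fin d → ℝ)) → (Fin d → ℝ) := fun W l => (∑ i, W i l) - r0 l
  have hDm : Measurable D := by
    apply measurable_pi_lambda
    intro l
    exact (Finset.measurable_sum _ (fun i _ => (measurable_pi_apply l).comp
      (measurable_pi_apply i))).sub_const _
  have hQint : Integrable (fun z : Fin d → ℝ => z) Q := by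
    apply Integrable.of_bound (by fun_prop) 1
    have : ∀ᵐ z ∂Q, z ∈ Metric.closedBall (0 : Fin d → ℝ) 1 := by
      rw [ae_iff]; exact hQb
    filter_upwards [this] with z hz
    simpa using hz
  have hQintl : ∀ l, Integrable (fun z : Fin d → ℝ => z l) Q := fun l => hQint.eval l
  have hWle : ∀ i : Fin k, PW.map (fun y => y i) ≤ (k : ℝ≥0∞) • Q := by
    intro i
    rw [← hsumW, Measure.le_iff]
    intro B _
    rw [Measure.finsetSum_apply]
    exact Finset.single_le_sum (f := fun i => (PW.map (fun y : Fin k → (Fin d → ℝ) => y i)) B)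
      (fun _ _ => zero_le) (Finset.mem_univ i)
  have hWint : ∀ (i : Fin k) (l : Fin d), Integrable (fun z : Fin d → ℝ => z l)
      (PW.map (fun y : Fin k → (Fin d → ℝ) => y i)) := fun i l =>
    ((hQintl l).smul_measure hkt).mono_measure (hWle i)
  have hWint2 : ∀ (i : Fin k) (l : Fin d), Integrable (fun y : Fin k → (Fin d → ℝ) => y i l) PW := by
    intro i l
    exact (hWint i l).comp_measurable (measurable_pi_apply i)
  have hDz : ∀ l, ∫ W, D W l ∂PW = 0 := by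
    intro l
    have e1 : ∫ W, D W l ∂PW = (∫ W, ∑ i, W i l ∂PW) - r0 l := by
      rw [integral_sub (integrable_finsetSum _ (fun i _ => hWint2 i l)) (integrable_const _)]
      simp
    rw [e1, integral_finsetSum _ (fun i _ => hWint2 i l)]
    have e2 : ∀ i : Fin k, ∫ W, W i l ∂PW = ∫ z, z l ∂(PW.map (fun y : Fin k → (Fin d → ℝ) => y i)) := by
      intro i
      rw [integral_map (measurable_pi_apply i).aemeasurable
        (measurable_pi_apply l).aestronglyMeasurable]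
    simp only [e2]
    rw [← integral_finsetSum_measure (fun i _ => hWint i l), hsumW, integral_smul_measure, hr0,
      Pi.smul_apply, eval_integral (fun l => hQintl l)]
    simp
  -- the gadget law with the true deviation
  have hAeq : AL h c0 PX PW D = A0 := by
    ext B hB
    rw [hA0, AL_apply h e hee PX PW D hDm hW hDz c0 hX B hB,
      AL_apply h e hee PX P00 D0 hD0m hD0b hD00 c0 hX B hB]
  -- the family
  have hcardJ : Fintype.card (Fin d × (Fin (2 * h) ⊕ Bool)) = m := by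
    simp [hmdef]
  let ee : Fin m ≃ Fin d × (Fin (2 * h) ⊕ Bool) :=
    (finCongr hcardJ.symm).trans (Fintype.equivFin _).symm
  have : NeZero m := ⟨hm0.ne'⟩
  let P : Measure ((Fin m → (Fin d → ℝ)) × ((Fin k → (Fin d → ℝ)) × ℝ)) := PX.prod (PW.prod U)
  let Y : Fin m → ((Fin m → (Fin d → ℝ)) × ((Fin k → (Fin d → ℝ)) × ℝ)) → (Fin k ⊕ Fin m) →
      (Fin d → ℝ) := fun c p => Sum.elim (fun i => p.2.1 i) (fun i => Vf h c0 D i (ee (i + c)) p)
  have hYm : ∀ c i, Measurable (fun p => Y c p i) := by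
    rintro c (i | i)
    · exact (measurable_pi_apply i).comp (measurable_fst.comp measurable_snd)
    · exact measurable_Vf h c0 D hDm i _
  have hcard : Fintype.card (Fin k ⊕ Fin m) = n := by
    rw [Fintype.card_sum, Fintype.card_fin, Fintype.card_fin]; omega
  refine exists_of_family P Y hYm n (by omega) hcard μ ?_
    (fun l => ((h:ℝ) + 1) / (d + 1) + (d / ((d:ℝ) + 1)) * c0 l + r0 l) ?_
  · have e1 : ∀ (c : Fin m) (i : Fin k), P.map (fun p => Y c p (Sum.inl i)) =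
        PW.map (fun y : Fin k → (Fin d → ℝ) => y i) := by
      intro c i
      have hmp : MeasurePreserving (fun p : (Fin m → (Fin d → ℝ)) × ((Fin k → (Fin d → ℝ)) × ℝ) =>
          p.2.1) P PW :=
        (measurePreserving_fst (μ := PW) (ν := U)).comp
          (measurePreserving_snd (μ := PX) (ν := PW.prod U))
      rw [← hmp.map_eq, Measure.map_map (measurable_pi_apply i) hmp.measurable]
      rfl
    have e2 : ∀ (c i : Fin m), P.map (fun p => Y c p (Sum.inr i)) =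
        P.map (Vf h c0 D i (ee (i + c))) := fun c i => rfl
    simp only [Fintype.sum_sum_type, e1, e2, hsumW]
    rw [Finset.sum_add_distrib, Finset.sum_const, Finset.card_univ, Fintype.card_fin,
      Finset.sum_comm]
    have e3 : ∀ i : Fin m, ∑ c : Fin m, P.map (Vf h c0 D i (ee (i + c))) =
        ∑ j, P.map (Vf h c0 D i j) := fun i =>
      Fintype.sum_equiv ((Equiv.addLeft i).trans ee) _ _ (fun c => rfl)
    simp only [e3]
    have e4 : ∑ i : Fin m, ∑ j, P.map (Vf h c0 D i j) = A0 := hAeq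
    rw [e4, ← hmG, hQk, ← Nat.cast_smul_eq_nsmul ℝ≥0∞, ← smul_add, hRA, smul_smul]
    push_cast
    rfl
  · intro c
    have m1 : ∀ᵐ p ∂P, ∀ l, |(∑ i, p.1 i l) - c0 l| ≤ e :=
      (measurePreserving_fst (μ := PX) (ν := PW.prod U)).quasiMeasurePreserving.ae hX
    have hmp : MeasurePreserving (fun p : (Fin m → (Fin d → ℝ)) × ((Fin k → (Fin d → ℝ)) × ℝ) =>
        p.2.1) P PW :=
      (measurePreserving_fst (μ := PW) (ν := U)).comp
        (measurePreserving_snd (μ := PX) (ν := PW.prod U))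
    have m2 : ∀ᵐ p ∂P, ∀ l, |D p.2.1 l| ≤ e := hmp.quasiMeasurePreserving.ae hW
    have hmp3 : MeasurePreserving (fun p : (Fin m → (Fin d → ℝ)) × ((Fin k → (Fin d → ℝ)) × ℝ) =>
        p.2.2) P U :=
      (measurePreserving_snd (μ := PW) (ν := U)).comp
        (measurePreserving_snd (μ := PX) (ν := PW.prod U))
    have m3 : ∀ᵐ p ∂P, p.2.2 ∈ Ioc (0:ℝ) 1 :=
      hmp3.quasiMeasurePreserving.ae (ae_restrict_mem measurableSet_Ioc)
    filter_upwards [m1, m2, m3] with p hp1 hp2 hp3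
    have hta : ∀ l, |ta h m c0 p.1 (D p.2.1) l - (h + 1)| ≤ h := by
      intro l
      have a1 := hp1 l
      have a2 := hp2 l
      have hd' : (0:ℝ) ≤ d := Nat.cast_nonneg d
      have e5 : ta h m c0 p.1 (D p.2.1) l - (h + 1) =
          -(d * ((∑ i, p.1 i l) - c0 l)) - (d + 1) * D p.2.1 l := by
        unfold ta; ring
      rw [e5]
      refine le_trans ?_ hee
      rw [abs_le] at a1 a2 ⊢
      constructor <;> nlinarith [mul_le_mul_of_nonneg_left a1.1 hd', mul_le_mul_of_nonneg_left a1.2 hd',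
        mul_le_mul_of_nonneg_left a2.1 (show (0:ℝ) ≤ d + 1 by positivity),
        mul_le_mul_of_nonneg_left a2.2 (show (0:ℝ) ≤ d + 1 by positivity)]
    have t1 : ∀ l, 1 ≤ ta h m c0 p.1 (D p.2.1) l := fun l => by
      have := (abs_le.mp (hta l)).1; linarith
    have t2 : ∀ l, ta h m c0 p.1 (D p.2.1) l ≤ 2 * h + 1 := fun l => by
      have := (abs_le.mp (hta l)).2; linarith
    funext l
    rw [Fintype.sum_sum_type, Pi.add_apply]
    have e6 : ∑ i : Fin m, Y c p (Sum.inr i) =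
        ∑ i : Fin m, Vf h c0 D i (((Equiv.addRight c).trans ee) i) p := rfl
    have e7 : (∑ i : Fin k, Y c p (Sum.inl i)) l = ∑ i : Fin k, p.2.1 i l := by
      rw [Finset.sum_apply]; rfl
    rw [e6, e7, sum_Vf h c0 D _ p hp3 t1 t2 l]
    have hd1 : (d:ℝ) + 1 ≠ 0 := by positivity
    simp only [ta, D]
    field_simp
    ring

end H843CM
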