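import Mathlib

set_option autoImplicit false
open MeasureTheory Set ProbabilityTheory Filter Topology
open scoped ENNReal NNReal

namespace H843CM

/-- the uniform law on `(0,1]` -/
noncomputable abbrev U : Measure ℝ := volume.restrict (Ioc (0:ℝ) 1)

instance : IsProbabilityMeasure U := ⟨by simp⟩

/-- states with total `t` -/
noncomputable def st (h : ℕ) (t u : ℝ) : Fin (2 * h) ⊕ Bool → ℝ
  | .inl j => if ((j : ℕ) : ℤ) < ⌊t - u⌋ then 1 else 0
  | .inr false => u
  | .inr true => Int.fract (t - u)

lemma measurable_st (h : ℕ) (i : Fin (2 * h) ⊕ Bool) :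
    Measurable (fun p : ℝ × ℝ => st h p.1 p.2 i) := by
  rcases i with j | b
  · simp only [st]
    apply Measurable.ite _ measurable_const measurable_const
    have : Measurable (fun p : ℝ × ℝ => ⌊p.1 - p.2⌋) := by fun_prop
    exact measurableSet_lt measurable_const this
  · cases b
    · simp only [st]; fun_prop
    · simp only [st]; fun_prop

/-- law of the states with mean total `t`, summed -/
noncomputable def ka (h : ℕ) (t : ℝ) : Measure ℝ :=
  (2:ℝ≥0∞) • U + (ENNReal.ofReal (t - 1) • Measure.dirac 1 +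
        ENNReal.ofReal (2 * h + 1 - t) • Measure.dirac 0)

/-- a contracted point shifted by `s` in the direction `l` -/
noncomputable def sh {d : ℕ} (l : Fin d) (x : Fin d → ℝ) (s : ℝ) : Fin d → ℝ :=
  ((d:ℝ) / (d + 1)) • x + (1 / ((d:ℝ) + 1)) • (Pi.single l s : Fin d → ℝ)

/-- the target total of the states of direction `l` -/
noncomputable def ta {d : ℕ} (h m : ℕ) (c0 : Fin d → ℝ) (X : Fin m → (Fin d → ℝ)) (D : Fin d → ℝ)
    (l : Fin d) : ℝ :=
  ((h:ℝ) + 1) - d * ((∑ i, X i l) - c0 l) - (d + 1) * D l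

end H843CM
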