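import Mathlib
set_option autoImplicit false
open MeasureTheory Set
open scoped ENNReal

namespace H843CM

theorem int_nonempty_25255 {d : ℕ} (C : Set (Fin d → ℝ)) (hC : Convex ℝ C) (h0 : 0 < volume C) :
    (interior C).Nonempty := by
  rw [hC.interior_nonempty_iff_affineSpan_eq_top]
  by_contra hne
  have h := Measure.addHaar_affineSubspace (volume : Measure (Fin d → ℝ)) (affineSpan ℝ C) hne
  have h2 : volume C ≤ 0 := by
    rw [← h]
    exact measure_mono (subset_affineSpan ℝ C)
  exact absurd h0 (not_lt.mpr h2)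

theorem small_ball_25255 {E : Type*} [NormedAddCommGroup E] [NormedSpace ℝ E] {C : Set E}
    (hC : Convex ℝ C) {a y : E} {r t : ℝ} (hb : Metric.ball a r ⊆ C)
    (hy : y ∈ C) (ht0 : 0 ≤ t) (ht1 : t ≤ 1 / 2) :
    Metric.ball (a + t • (y - a)) (r / 2) ⊆ C := by
  intro p hp
  rw [Metric.mem_ball, dist_eq_norm] at hp
  set v : E := p - (a + t • (y - a)) with hv
  have h1t : 0 < 1 - t := by linarith
  have hq : a + (1 - t)⁻¹ • v ∈ C := by
    apply hb
    rw [Metric.mem_ball, dist_eq_norm]
    have : a + (1 - t)⁻¹ • v - a = (1 - t)⁻¹ • v := by abel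
    rw [this, norm_smul, Real.norm_eq_abs, abs_of_pos (inv_pos.mpr h1t)]
    rw [inv_mul_lt_iff₀ h1t]
    have hv0 : 0 ≤ ‖v‖ := norm_nonneg v
    nlinarith
  have hp2 : p = (1 - t) • (a + (1 - t)⁻¹ • v) + t • y := by
    rw [smul_add, smul_smul, mul_inv_cancel₀ h1t.ne', one_smul, hv]
    module
  rw [hp2]
  exact hC hq hy h1t.le ht0 (by ring)

theorem bdd_25255 {d : ℕ} (C : Set (Fin d → ℝ)) (hC : Convex ℝ C)
    (h1 : volume C < ⊤) (hi : (interior C).Nonempty) : Bornology.IsBounded C := by
  by_contra hnb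
  obtain ⟨a, ha⟩ := hi
  obtain ⟨r, hr, hb⟩ := Metric.isOpen_iff.mp isOpen_interior a ha
  have hb : Metric.ball a r ⊆ C := hb.trans interior_subset
  have hpos : volume (Metric.ball (0 : Fin d → ℝ) (r / 2)) ≠ 0 :=
    (Metric.measure_ball_pos volume _ (by positivity)).ne'
  obtain ⟨N, hN⟩ := ENNReal.exists_nat_mul_gt hpos h1.ne
  obtain ⟨y, hy, hyR⟩ : ∃ y ∈ C, 2 * N * r < dist y a := by
    by_contra hcon
    push Not at hcon
    apply hnb
    refine (Metric.isBounded_closedBall (x := a) (r := 2 * N * r)).subset ?_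
    intro y hy
    exact Metric.mem_closedBall.mpr (hcon y hy)
  set R : ℝ := dist y a with hR
  have hRpos : 0 < R := lt_of_le_of_lt (by positivity) hyR
  let c : ℕ → (Fin d → ℝ) := fun j => a + ((j : ℝ) * r / R) • (y - a)
  have hsub : ∀ j ∈ Finset.range N, Metric.ball (c j) (r / 2) ⊆ C := by
    intro j hj
    refine small_ball_25255 hC hb hy (by positivity) ?_
    have hjN : (j : ℝ) ≤ N := by exact_mod_cast (Finset.mem_range.mp hj).le
    rw [div_le_iff₀ hRpos]
    nlinarith
  have hdist : ∀ i j : ℕ, i ≠ j → r ≤ dist (c i) (c j) := by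
    intro i j hij
    have e : c i - c j = (((i : ℝ) - j) * r / R) • (y - a) := by
      simp only [c]
      module
    rw [dist_eq_norm, e, norm_smul, Real.norm_eq_abs, ← dist_eq_norm, ← hR, abs_div, abs_mul,
      abs_of_pos hr, abs_of_pos hRpos, div_mul_cancel₀ _ hRpos.ne']
    have h1 : (1 : ℝ) ≤ |(i : ℝ) - j| := by
      have : (1 : ℤ) ≤ |(i : ℤ) - j| := Int.one_le_abs (by omega)
      exact_mod_cast this
    nlinarith
  have hdis : (↑(Finset.range N) : Set ℕ).PairwiseDisjoint (fun j => Metric.ball (c j) (r / 2)) := by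
    intro i _ j _ hij
    apply Metric.ball_disjoint_ball
    have := hdist i j hij
    linarith
  have hvol := measure_biUnion_finset (μ := volume) hdis (fun j _ => measurableSet_ball)
  have hle : volume (⋃ j ∈ Finset.range N, Metric.ball (c j) (r / 2)) ≤ volume C :=
    measure_mono (Set.iUnion₂_subset hsub)
  rw [hvol] at hle
  have hsum : ∑ j ∈ Finset.range N, volume (Metric.ball (c j) (r / 2))
      = (N : ℝ≥0∞) * volume (Metric.ball (0 : Fin d → ℝ) (r / 2)) := by
    rw [Finset.sum_congr rfl (fun j _ => Measure.addHaar_ball_center volume (c j) (r / 2))]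
    simp
  rw [hsum] at hle
  exact absurd hN (not_lt.mpr hle)

/-- a convex set of positive finite volume is bounded, with compact closure and nonempty interior -/
theorem convex_facts {d : ℕ} (C : Set (Fin d → ℝ)) (hC : Convex ℝ C) (h0 : 0 < volume C)
    (h1 : volume C < ⊤) : IsCompact (closure C) ∧ (interior (closure C)).Nonempty := by
  have hi := int_nonempty_25255 C hC h0
  refine ⟨(bdd_25255 C hC h1 hi).isCompact_closure, hi.mono (interior_mono subset_closure)⟩

end H843CM
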