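import Mathlib
set_option autoImplicit false
open MeasureTheory Set
open scoped ENNReal

namespace H843CM

/-- normalisation by a simplex of maximal volume: after an affine change of coordinates `x = v + L y`
the body lies in the cube `[-1,1]^d` and contains `0` and the unit vectors. -/
theorem exists_normal {d : ℕ} (C : Set (Fin d → ℝ)) (hC : IsCompact C) (hi : (interior C).Nonempty) :
    ∃ (v : Fin d → ℝ) (L : (Fin d → ℝ) ≃ₗ[ℝ] (Fin d → ℝ)),
      v ∈ C ∧ (∀ i, v + L (Pi.single i 1) ∈ C) ∧ (∀ x ∈ C, ‖L.symm (x - v)‖ ≤ 1) := by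
  classical
  let F : (Fin d → ℝ) × (Fin d → (Fin d → ℝ)) → ℝ :=
    fun p => |(Matrix.of (fun i j => p.2 i j - p.1 j) : Matrix (Fin d) (Fin d) ℝ).det|
  have hFc : Continuous F := by
    apply Continuous.abs
    apply Continuous.matrix_det
    apply continuous_matrix
    intro i j
    simp only [Matrix.of_apply]
    fun_prop
  let K : Set ((Fin d → ℝ) × (Fin d → (Fin d → ℝ))) := C ×ˢ (Set.univ.pi (fun _ => C))
  have hK : IsCompact K := hC.prod (isCompact_univ_pi (fun _ => hC))
  obtain ⟨y0, hy0⟩ := hi
  obtain ⟨ε, hε, hball⟩ := Metric.isOpen_iff.1 isOpen_interior y0 hy0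
  have hCball : Metric.ball y0 ε ⊆ C := hball.trans interior_subset
  have hp0 : (y0, fun i => y0 + Pi.single i (ε/2)) ∈ K := by
    refine ⟨hCball (Metric.mem_ball_self hε), ?_⟩
    intro i _
    apply hCball
    rw [Metric.mem_ball, dist_eq_norm]
    have : y0 + Pi.single i (ε/2) - y0 = Pi.single (M := fun _ => ℝ) i (ε/2) := by simp
    show ‖y0 + Pi.single i (ε/2) - y0‖ < ε
    rw [this, Pi.norm_single, Real.norm_eq_abs, abs_of_pos (by positivity)]
    linarith
  obtain ⟨⟨v, Y⟩, hpK, hmax⟩ := hK.exists_isMaxOn ⟨_, hp0⟩ hFc.continuousOn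
  have hvC : v ∈ C := hpK.1
  have hYC : ∀ i, Y i ∈ C := fun i => hpK.2 i (Set.mem_univ i)
  have hF0 : F (y0, fun i => y0 + Pi.single i (ε/2)) = (ε/2)^d := by
    have h1 : (Matrix.of (fun i j => (y0 + Pi.single (M := fun _ => ℝ) i (ε/2)) j - y0 j) : Matrix (Fin d) (Fin d) ℝ)
        = Matrix.diagonal (fun _ => ε/2) := by
      ext i j
      simp only [Matrix.of_apply, Pi.add_apply, Matrix.diagonal_apply, Pi.single_apply]
      by_cases h : i = j
      · subst h; simp
      · have h' : ¬ (j = i) := fun e => h e.symm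
        simp [h, h']
    show |Matrix.det _| = _
    rw [h1, Matrix.det_diagonal]
    simp only [Finset.prod_const, Finset.card_univ, Fintype.card_fin]
    exact abs_of_pos (by positivity)
  set M : Matrix (Fin d) (Fin d) ℝ := Matrix.of (fun i j => Y i j - v j) with hM
  have hMpos : 0 < |M.det| := by
    have h2 := hmax hp0
    have h3 : F (y0, fun i => y0 + Pi.single i (ε/2)) ≤ F (v, Y) := h2
    rw [hF0] at h3
    have : 0 < (ε/2)^d := by positivity
    exact lt_of_lt_of_le this h3
  have hMdet : M.det ≠ 0 := abs_pos.1 hMpos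
  have hu : IsUnit (M.transpose).det := by
    rw [Matrix.det_transpose]; exact isUnit_iff_ne_zero.2 hMdet
  let L : (Fin d → ℝ) ≃ₗ[ℝ] (Fin d → ℝ) := Matrix.toLinearEquiv' M.transpose
    (Matrix.invertibleOfIsUnitDet _ hu)
  have hL : ∀ z, L z = M.transpose.mulVec z := by
    intro z
    rfl
  refine ⟨v, L, hvC, ?_, ?_⟩
  · intro i
    rw [hL]
    have : v + M.transpose.mulVec (Pi.single i 1) = Y i := by
      ext j
      simp [Matrix.mulVec_single, hM]
    rw [this]
    exact hYC i
  · intro x hx
    rw [pi_norm_le_iff_of_nonneg zero_le_one]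
    intro i
    set z := L.symm (x - v) with hz
    have hLz : M.transpose.mulVec z = x - v := by
      rw [← hL, hz, LinearEquiv.apply_symm_apply]
    have h4 : Matrix.cramer M.transpose (x - v) = M.det • z := by
      rw [← hLz, Matrix.cramer_eq_adjugate_mulVec, Matrix.mulVec_mulVec, Matrix.adjugate_mul,
        Matrix.smul_mulVec, Matrix.one_mulVec, Matrix.det_transpose]
    have h5 : (M.updateRow i (x - v)).det = M.det * z i := by
      have := congrFun h4 i
      rw [Matrix.cramer_apply] at this
      rw [Matrix.updateCol_transpose, Matrix.det_transpose] at this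
      simpa using this
    have h6 : (v, Function.update Y i x) ∈ K := by
      refine ⟨hvC, ?_⟩
      intro j _
      by_cases hj : j = i
      · subst hj; simpa using hx
      · simpa [Function.update_of_ne hj] using hYC j
    have h7 : F (v, Function.update Y i x) ≤ F (v, Y) := hmax h6
    have h8 : F (v, Function.update Y i x) = |(M.updateRow i (x - v)).det| := by
      show |Matrix.det _| = _
      congr 2
      ext a b
      by_cases ha : a = i
      · subst ha; simp
      · simp [Function.update_of_ne ha, Matrix.updateRow_ne ha, hM]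
    have h9 : F (v, Y) = |M.det| := rfl
    rw [h8, h9, h5, abs_mul] at h7
    rw [Real.norm_eq_abs]
    have := (mul_le_iff_le_one_right hMpos).1 h7
    exact this

end H843CM
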