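import Pool.Agent.Helper843.CM.Defs

set_option autoImplicit false
open MeasureTheory Set ProbabilityTheory Filter Topology
open scoped ENNReal NNReal

namespace H843CM

/-- rotation invariance: `u ↦ fract (c - u)` preserves the uniform law on `(0,1]`. -/
lemma ls_lintegral_fract (c : ℝ) (F : ℝ → ℝ≥0∞) :
    ∫⁻ u in Ioc (0:ℝ) 1, F (Int.fract (c - u)) = ∫⁻ s in Ioc (0:ℝ) 1, F s := by
  have hP : Function.Periodic (fun x : ℝ => F (Int.fract x)) 1 := by
    intro x; simp
  have h1 := UnitAddCircle.lintegral_preimage 0 (fun b => hP.lift ((c : UnitAddCircle) - b))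
  have h2 := UnitAddCircle.lintegral_preimage 0 (fun b => hP.lift b)
  have h3 : ∫⁻ b : UnitAddCircle, hP.lift ((c : UnitAddCircle) - b) = ∫⁻ b : UnitAddCircle, hP.lift b :=
    lintegral_sub_left_eq_self (μ := (volume : Measure UnitAddCircle)) (fun b => hP.lift b) (c : UnitAddCircle)
  rw [h3, ← h2] at h1
  simp only [zero_add] at h1
  have h4 : ∀ u : ℝ, hP.lift ((c : UnitAddCircle) - (u : UnitAddCircle)) = F (Int.fract (c - u)) := by
    intro u
    rw [← AddCircle.coe_sub]
    exact hP.lift_coe _
  have h5 : ∀ u : ℝ, hP.lift (u : UnitAddCircle) = F (Int.fract u) := fun u => hP.lift_coe _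
  simp only [h4, h5] at h1
  rw [h1]
  apply lintegral_congr_ae
  have : ∀ᵐ x : ℝ ∂(volume.restrict (Ioc (0:ℝ) 1)), x ≠ 1 := by
    apply ae_restrict_of_ae
    simp [ae_iff]
  filter_upwards [this, ae_restrict_mem measurableSet_Ioc] with x hx1 hx2
  rw [Int.fract_eq_self.mpr ⟨hx2.1.le, lt_of_le_of_ne hx2.2 hx1⟩]

lemma ls_sum_ite_lt (n : ℕ) (k : ℤ) (h0 : 0 ≤ k) (hn : k ≤ n) :
    ∑ j : Fin n, (if ((j : ℕ) : ℤ) < k then (1:ℝ) else 0) = k := by
  lift k to ℕ using h0
  have hn' : k ≤ n := by exact_mod_cast hn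
  rw [Finset.sum_ite]
  simp only [Finset.sum_const, Finset.sum_const_zero, add_zero, nsmul_eq_mul, mul_one]
  have : (Finset.univ.filter (fun j : Fin n => ((j : ℕ) : ℤ) < (k:ℤ))).card = k := by
    have h1 : (Finset.univ.filter (fun j : Fin n => ((j : ℕ) : ℤ) < (k:ℤ))) =
        (Finset.univ.filter (fun j : Fin n => (j : ℕ) < k)) := by
      ext j; simp
    rw [h1, Fin.card_filter_val_lt, min_eq_right hn']
  rw [this]; simp

/-- the total of the states -/
lemma ls_sum_st (h : ℕ) (t u : ℝ) (hu : u ∈ Ioc (0:ℝ) 1)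
    (h1 : 1 ≤ t) (h2 : t ≤ 2 * h + 1) :
    ∑ i, st h t u i = t := by
  rw [Fintype.sum_sum_type]
  simp only [st, Fintype.sum_bool]
  rw [ls_sum_ite_lt]
  · have := Int.self_sub_floor (t - u)
    rw [← this]; ring
  · apply Int.floor_nonneg.mpr
    linarith [hu.2]
  · have : (⌊t - u⌋ : ℝ) < 2 * h + 1 := by
      refine (Int.floor_le _).trans_lt ?_
      linarith [hu.1]
    have h3 : ⌊t - u⌋ < (2 * h + 1 : ℤ) := by exact_mod_cast this
    push_cast
    omega

lemma ls_integral_fract (c : ℝ) : ∫ u in Ioc (0:ℝ) 1, Int.fract (c - u) = 1/2 := by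
  rw [integral_eq_lintegral_of_nonneg_ae]
  · have := ls_lintegral_fract c (fun x => ENNReal.ofReal x)
    rw [this, ← integral_eq_lintegral_of_nonneg_ae]
    · rw [← intervalIntegral.integral_of_le zero_le_one]
      simp
    · filter_upwards [ae_restrict_mem measurableSet_Ioc] with x hx using hx.1.le
    · fun_prop
  · exact Eventually.of_forall (fun x => Int.fract_nonneg _)
  · exact (by fun_prop : Measurable _).aestronglyMeasurable

/-- the law of the states summed: depends only on the mean of `τ` -/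
theorem sum_map_st {Ω : Type} [MeasurableSpace Ω] (P : Measure Ω) [IsProbabilityMeasure P]
    (h : ℕ) (τ : Ω → ℝ) (hτ : Measurable τ)
    (h1 : ∀ᵐ ω ∂P, 1 ≤ τ ω) (h2 : ∀ᵐ ω ∂P, τ ω ≤ 2 * h + 1) :
    ∑ i, (P.prod U).map (fun p => st h (τ p.1) p.2 i) =
      (2:ℝ≥0∞) • U + (ENNReal.ofReal ((∫ ω, τ ω ∂P) - 1) • Measure.dirac 1 +
        ENNReal.ofReal (2 * h + 1 - ∫ ω, τ ω ∂P) • Measure.dirac 0) := by
  classical
  have hmst : ∀ i, Measurable (fun p : Ω × ℝ => st h (τ p.1) p.2 i) := by
    intro i
    exact (measurable_st h i).comp ((hτ.comp measurable_fst).prodMk measurable_snd)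
  rw [Fintype.sum_sum_type, Fintype.sum_bool]
  have e1 : (P.prod U).map (fun p => st h (τ p.1) p.2 (Sum.inr false)) = U := by
    simp only [st]
    have := (measurePreserving_snd (μ := P) (ν := U)).map_eq
    exact this
  have e2 : (P.prod U).map (fun p => st h (τ p.1) p.2 (Sum.inr true)) = U := by
    simp only [st]
    have hm : Measurable (fun p : Ω × ℝ => Int.fract (τ p.1 - p.2)) := by fun_prop
    ext B hB
    rw [Measure.map_apply hm hB, ← lintegral_indicator_one (hm hB), lintegral_prod]
    · have : ∀ v : Ω, ∫⁻ u, ((fun p : Ω × ℝ => Int.fract (τ p.1 - p.2)) ⁻¹' B).indicator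
          (1 : Ω × ℝ → ℝ≥0∞) (v, u) ∂U = U B := by
        intro v
        have := ls_lintegral_fract (τ v) (B.indicator 1)
        rw [lintegral_indicator_one hB] at this
        rw [← this]
        rfl
      simp only [this]
      simp
    · exact (measurable_one.indicator (hm hB)).aemeasurable
  rw [e1, e2]
  -- flips
  set E : Fin (2 * h) → Set (Ω × ℝ) := fun j => {p | ((j : ℕ) : ℤ) < ⌊τ p.1 - p.2⌋} with hE
  have hEm : ∀ j, MeasurableSet (E j) := by
    intro j
    have : Measurable (fun p : Ω × ℝ => ⌊τ p.1 - p.2⌋) := by fun_prop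
    exact measurableSet_lt measurable_const this
  have e3 : ∀ j : Fin (2 * h), (P.prod U).map (fun p => st h (τ p.1) p.2 (Sum.inl j)) =
      (P.prod U) (E j) • Measure.dirac 1 + (P.prod U) (E j)ᶜ • Measure.dirac 0 := by
    intro j
    ext B hB
    rw [Measure.map_apply (hmst _) hB]
    simp only [Measure.add_apply, Measure.smul_apply, smul_eq_mul, Measure.dirac_apply' _ hB]
    have : (fun p : Ω × ℝ => st h (τ p.1) p.2 (Sum.inl j)) ⁻¹' B =
        (E j ∩ (fun p : Ω × ℝ => st h (τ p.1) p.2 (Sum.inl j)) ⁻¹' B) ∪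
        ((E j)ᶜ ∩ (fun p : Ω × ℝ => st h (τ p.1) p.2 (Sum.inl j)) ⁻¹' B) := by
      rw [← union_inter_distrib_right, union_compl_self, univ_inter]
    rw [this, measure_union]
    · have a1 : E j ∩ (fun p : Ω × ℝ => st h (τ p.1) p.2 (Sum.inl j)) ⁻¹' B =
          if (1:ℝ) ∈ B then E j else ∅ := by
        ext p
        by_cases hp : p ∈ E j
        · have : st h (τ p.1) p.2 (Sum.inl j) = 1 := by simp only [st]; exact if_pos hp
          simp only [mem_inter_iff, hp, true_and, mem_preimage, this]
          split_ifs with h3 <;> simp [h3, hp]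
        · simp only [mem_inter_iff, hp, false_and]
          split_ifs <;> simp [hp]
      have a2 : (E j)ᶜ ∩ (fun p : Ω × ℝ => st h (τ p.1) p.2 (Sum.inl j)) ⁻¹' B =
          if (0:ℝ) ∈ B then (E j)ᶜ else ∅ := by
        ext p
        by_cases hp : p ∈ E j
        · simp only [mem_inter_iff, mem_compl_iff, hp, not_true, false_and]
          split_ifs <;> simp [hp]
        · have : st h (τ p.1) p.2 (Sum.inl j) = 0 := by simp only [st]; exact if_neg hp
          simp only [mem_inter_iff, mem_compl_iff, hp, not_false_iff, true_and, mem_preimage, this]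
          split_ifs with h3 <;> simp [h3, hp]
      rw [a1, a2]
      by_cases b1 : (1:ℝ) ∈ B <;> by_cases b2 : (0:ℝ) ∈ B <;> simp [b1, b2]
    · exact (disjoint_compl_right.mono inter_subset_left inter_subset_left)
    · exact (hEm j).compl.inter (hmst _ hB)
  simp only [e3]
  rw [Finset.sum_add_distrib, ← Finset.sum_smul, ← Finset.sum_smul]
  have hreal : ∑ j, (P.prod U).real (E j) = (∫ ω, τ ω ∂P) - 1 := by
    have : ∀ j, (P.prod U).real (E j) = ∫ p, (if ((j : ℕ) : ℤ) < ⌊τ p.1 - p.2⌋ then (1:ℝ) else 0) ∂(P.prod U) := by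
      intro j
      rw [← integral_indicator_one (hEm j)]
      refine integral_congr_ae (Eventually.of_forall (fun p => ?_))
      by_cases hp : ((j : ℕ) : ℤ) < ⌊τ p.1 - p.2⌋
      · have hp' : p ∈ E j := hp
        simp [hp', hp]
      · have hp' : p ∉ E j := hp
        simp [hp', hp]
    simp only [this]
    have hb : Integrable (fun p : Ω × ℝ => τ p.1) (P.prod U) := by
      have : Integrable τ P := by
        apply Integrable.of_bound hτ.aestronglyMeasurable (2 * h + 1)
        filter_upwards [h1, h2] with v hv1 hv2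
        rw [Real.norm_eq_abs, abs_of_nonneg (zero_le_one.trans hv1)]
        exact hv2
      exact this.comp_fst U
    have hf : Integrable (fun p : Ω × ℝ => Int.fract (τ p.1 - p.2)) (P.prod U) := by
      apply Integrable.of_bound (by fun_prop : Measurable _).aestronglyMeasurable 1
      refine Eventually.of_forall (fun p => ?_)
      rw [Real.norm_eq_abs, abs_of_nonneg (Int.fract_nonneg _)]
      exact (Int.fract_lt_one _).le
    have hs : Integrable (fun p : Ω × ℝ => p.2) (P.prod U) := by
      have : Integrable (fun x : ℝ => x) U := by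
        apply Integrable.of_bound (by fun_prop) 1
        filter_upwards [ae_restrict_mem measurableSet_Ioc] with v hv
        rw [Real.norm_eq_abs, abs_of_nonneg hv.1.le]
        exact hv.2
      exact this.comp_snd P
    rw [← integral_finsetSum]
    · have hcongr : ∫ p, ∑ j : Fin (2*h), (if ((j : ℕ) : ℤ) < ⌊τ p.1 - p.2⌋ then (1:ℝ) else 0) ∂(P.prod U)
          = ∫ p, (τ p.1 - p.2 - Int.fract (τ p.1 - p.2)) ∂(P.prod U) := by
        apply integral_congr_ae
        have m1 : ∀ᵐ p ∂(P.prod U), 1 ≤ τ p.1 :=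
          (measurePreserving_fst (μ := P) (ν := U)).quasiMeasurePreserving.ae h1
        have m1' : ∀ᵐ p ∂(P.prod U), τ p.1 ≤ 2 * h + 1 :=
          (measurePreserving_fst (μ := P) (ν := U)).quasiMeasurePreserving.ae h2
        have m2 : ∀ᵐ p ∂(P.prod U), p.2 ∈ Ioc (0:ℝ) 1 :=
          (measurePreserving_snd (μ := P) (ν := U)).quasiMeasurePreserving.ae
            (ae_restrict_mem measurableSet_Ioc)
        filter_upwards [m1, m1', m2] with p hp1 hp1' hp2
        have := ls_sum_st h (τ p.1) p.2 hp2 hp1 hp1'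
        rw [Fintype.sum_sum_type] at this
        simp only [st, Fintype.sum_bool] at this
        linarith
      have hsub1 := integral_sub (hb.sub hs) hf
      have hsub2 := integral_sub hb hs
      simp only [Pi.sub_apply] at hsub1 hsub2
      rw [hcongr, hsub1, hsub2]
      rw [integral_prod _ hf, integral_prod _ hs, integral_prod _ hb]
      simp only [ls_integral_fract, integral_const, measureReal_def, measure_univ, ENNReal.toReal_one, one_smul]
      have : ∫ y in Ioc (0:ℝ) 1, y = 1/2 := by
        rw [← intervalIntegral.integral_of_le zero_le_one]; simp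
      rw [this]
      simp
      ring
    · intro j _
      apply Integrable.of_bound _ 1
      · refine Eventually.of_forall (fun p => ?_)
        split_ifs <;> simp
      · exact (Measurable.ite (hEm j) measurable_const measurable_const).aestronglyMeasurable
  have s1 : ∑ j, (P.prod U) (E j) = ENNReal.ofReal ((∫ ω, τ ω ∂P) - 1) := by
    have : ∀ j, (P.prod U) (E j) = ENNReal.ofReal ((P.prod U).real (E j)) := by
      intro j; rw [measureReal_def, ENNReal.ofReal_toReal (measure_ne_top _ _)]
    simp only [this]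
    rw [← ENNReal.ofReal_sum_of_nonneg (fun _ _ => measureReal_nonneg), hreal]
  have s2 : ∑ j, (P.prod U) (E j)ᶜ = ENNReal.ofReal (2 * h + 1 - ∫ ω, τ ω ∂P) := by
    have : ∀ j, (P.prod U) (E j)ᶜ = ENNReal.ofReal (1 - (P.prod U).real (E j)) := by
      intro j
      rw [← probReal_compl_eq_one_sub (hEm j), measureReal_def, ENNReal.ofReal_toReal (measure_ne_top _ _)]
    simp only [this]
    rw [← ENNReal.ofReal_sum_of_nonneg, Finset.sum_sub_distrib, hreal]
    · simp
      congr 1
      ring
    · intro j _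
      linarith [(measureReal_le_one : (P.prod U).real (E j) ≤ 1)]
  rw [s1, s2, add_comm, two_smul]

end H843CM
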