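import Pool.Agent.Helper843.CM.Core
import Pool.Agent.Helper843.CM.Facts
import Pool.Agent.Helper843.CM.Normal
import Pool.Agent.Helper843.CM.SumMap

set_option autoImplicit false
open MeasureTheory Set ProbabilityTheory Filter Topology
open scoped ENNReal NNReal

namespace H843CM

theorem main {d : ℕ} (hd : 1 ≤ d) (C : Set (Fin d → ℝ)) (hC : Convex ℝ C) (h0 : 0 < volume C)
    (h1 : volume C < ⊤) (n : ℕ) (hn : 48 * d ^ 3 + 168 * d ^ 2 + 84 * d ≤ n) : CM d n C := by
  apply CM_closure C hC
  obtain ⟨hcomp, hint⟩ := convex_facts C hC h0 h1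
  obtain ⟨v, L, hvC, hLC, hLn⟩ := exists_normal (closure C) hcomp hint
  have hconv : Convex ℝ (closure C) := hC.closure
  -- the body in normal position
  set C2 : Set (Fin d → ℝ) := {y | v + L y ∈ closure C} with hC2
  have himg : (fun x => v + L x) '' C2 = closure C := by
    ext x
    constructor
    · rintro ⟨y, hy, rfl⟩; exact hy
    · intro hx
      exact ⟨L.symm (x - v), by simp [hC2, hx], by simp⟩
  rw [← himg]
  apply CM_affine
  have hLc : Continuous L := L.toLinearMap.continuous_of_finiteDimensional
  have hcont : Continuous (fun y : Fin d → ℝ => v + L y) := continuous_const.add hLc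
  have hC2cl : IsClosed C2 := isClosed_closure.preimage hcont
  have hC2conv : Convex ℝ C2 := by
    intro x hx y hy a b ha hb hab
    have := hconv hx hy ha hb hab
    show v + L (a • x + b • y) ∈ closure C
    have e : v + L (a • x + b • y) = a • (v + L x) + b • (v + L y) := by
      rw [map_add, map_smul, map_smul]
      have : v = (a + b) • v := by rw [hab, one_smul]
      nth_rw 1 [this]
      rw [add_smul, smul_add, smul_add]
      abel
    rw [e]; exact this
  have hC2b : C2 ⊆ Metric.closedBall 0 1 := by
    intro y hy
    have := hLn _ hy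
    simpa using this
  refine core hd C2 hC2conv hC2cl.measurableSet (by simpa [hC2] using hvC) hLC hC2b ?_ n ?_
  · have hne : (interior C2).Nonempty := by
      obtain ⟨x, hx⟩ := hint
      refine ⟨L.symm (x - v), ?_⟩
      have hsub : (fun y : Fin d → ℝ => v + L y) ⁻¹' (interior (closure C)) ⊆ interior C2 :=
        preimage_interior_subset_interior_preimage hcont
      apply hsub
      simpa using hx
    exact (Measure.measure_pos_of_nonempty_interior _ hne)
  · calc 12 * d * (4 * d ^ 2 + 14 * d + 7) = 48 * d ^ 3 + 168 * d ^ 2 + 84 * d := by ring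
      _ ≤ n := hn

end H843CM
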