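import Mathlib
set_option autoImplicit false
open MeasureTheory Set
open scoped ENNReal

namespace H843CM

/-- count vector -/
noncomputable def h400_N {ι : Type} [DecidableEq ι] {k : ℕ} (φ : Fin k → ι) : ι → ℝ :=
  ∑ i, Pi.single (φ i) (1:ℝ)

theorem h400_N_apply {ι : Type} [DecidableEq ι] {k : ℕ} (φ : Fin k → ι) (c : ι) :
    h400_N φ c = ((Finset.univ.filter (fun i => φ i = c)).card : ℝ) := by
  unfold h400_N
  rw [Finset.sum_apply, Finset.card_filter, Nat.cast_sum]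
  apply Finset.sum_congr rfl
  intro i _
  rw [Pi.single_apply]
  by_cases h : φ i = c
  · rw [if_pos h.symm, if_pos h, Nat.cast_one]
  · rw [if_neg (fun h' => h h'.symm), if_neg h, Nat.cast_zero]

/-- Caratheodory -/
theorem h400_car {d : ℕ} {ι : Type} [Fintype ι] (x : ι → (Fin d → ℝ)) (g : ι → ℝ) (p : ι → ℝ)
    (hp : ∀ c, 0 ≤ p c) (hp1 : ∑ c, p c = 1) :
    ∃ (J : Type) (_ : Fintype J) (cc : J → ι) (w : J → ℝ), Fintype.card J ≤ d + 2 ∧
      (∀ j, 0 < w j) ∧ ∑ j, w j = 1 ∧ ∑ j, w j • x (cc j) = ∑ c, p c • x c ∧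
      ∑ j, w j * g (cc j) = ∑ c, p c * g c := by
  have h1 : (∑ c, p c • ((x c, g c) : (Fin d → ℝ) × ℝ)) ∈
      convexHull ℝ (Set.range (fun c => ((x c, g c) : (Fin d → ℝ) × ℝ))) :=
    mem_convexHull_of_exists_fintype p (fun c => ((x c, g c) : (Fin d → ℝ) × ℝ)) hp hp1
      (fun c => ⟨c, rfl⟩) rfl
  obtain ⟨J, hJ, z, w, hz, hind, hw, hw1, hsum⟩ := eq_pos_convex_span_of_mem_convexHull h1
  have hcc : ∀ j, ∃ c, ((x c, g c) : (Fin d → ℝ) × ℝ) = z j := fun j => hz ⟨j, rfl⟩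
  choose cc hcc' using hcc
  refine ⟨J, hJ, cc, w, ?_, hw, hw1, ?_, ?_⟩
  · have h2 := hind.card_le_finrank_succ
    have h3 := Submodule.finrank_le (vectorSpan ℝ (Set.range z))
    have h4 : Module.finrank ℝ ((Fin d → ℝ) × ℝ) = d + 1 := by
      rw [Module.finrank_prod, Module.finrank_fin_fun, Module.finrank_self]
    omega
  · have h5 := congrArg Prod.fst hsum
    rw [Prod.fst_sum, Prod.fst_sum] at h5
    simp only [← hcc', Prod.smul_fst] at h5
    exact h5
  · have h5 := congrArg Prod.snd hsum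
    rw [Prod.snd_sum, Prod.snd_sum] at h5
    simp only [← hcc', Prod.smul_snd, smul_eq_mul] at h5
    exact h5

/-- an allocation with prescribed counts -/
theorem h400_alloc {J : Type} [Fintype J] (N : J → ℕ) (k : ℕ) (h : ∑ j, N j = k) :
    ∃ ψ : Fin k → J, (∀ g : J → ℝ, ∑ i, g (ψ i) = ∑ j, (N j : ℝ) * g j) := by
  have hc : Fintype.card (Σ j, Fin (N j)) = k := by
    rw [Fintype.card_sigma]
    simpa using h
  obtain ⟨e⟩ : Nonempty (Fin k ≃ Σ j, Fin (N j)) := ⟨(Fintype.equivFinOfCardEq hc).symm⟩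
  refine ⟨fun i => (e i).1, fun g => ?_⟩
  rw [Equiv.sum_comp e (fun s => g s.1), Fintype.sum_sigma]
  apply Finset.sum_congr rfl
  intro j _
  show ∑ _y : Fin (N j), g j = _
  rw [Finset.sum_const, Finset.card_univ, Fintype.card_fin, nsmul_eq_mul]

/-- the main rounding step: for every linear functional there is a good allocation -/
theorem h400_round {d : ℕ} {ι : Type} [Fintype ι] (x : ι → (Fin d → ℝ))
    (hx : ∀ c, ‖x c‖ ≤ 1) (p : ι → ℝ) (hp : ∀ c, 0 ≤ p c) (hp1 : ∑ c, p c = 1) (k : ℕ)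
    (g : ι → ℝ) : ∃ φ : Fin k → ι,
      ‖(∑ i, x (φ i)) - (k:ℝ) • (∑ c, p c • x c)‖ ≤ 2 * ((d:ℝ) + 2) ∧
      (k:ℝ) * ∑ c, p c * g c ≤ ∑ i, g (φ i) := by
  classical
  obtain ⟨J, hJ, cc, w, hcard, hw, hw1, hwx, hwg⟩ := h400_car x g p hp hp1
  have hJne : Nonempty J := by
    by_contra hne
    rw [not_nonempty_iff] at hne
    rw [Finset.univ_eq_empty, Finset.sum_empty] at hw1
    exact zero_ne_one hw1
  obtain ⟨j₀, -, hj₀⟩ := Finset.exists_max_image Finset.univ (fun j => g (cc j))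
    ⟨Classical.choice hJne, Finset.mem_univ _⟩
  have hk0 : (0:ℝ) ≤ k := Nat.cast_nonneg k
  obtain ⟨n, hn⟩ : ∃ n : J → ℕ, n = fun j => ⌊(k:ℝ) * w j⌋₊ := ⟨_, rfl⟩
  have hn1 : ∀ j, (n j : ℝ) ≤ k * w j := by
    intro j
    rw [hn]
    exact Nat.floor_le (mul_nonneg hk0 (hw j).le)
  have hn2 : ∀ j, (k:ℝ) * w j ≤ n j + 1 := by
    intro j
    rw [hn]
    exact (Nat.lt_floor_add_one _).le
  have hkw : ∑ j, (k:ℝ) * w j = k := by
    rw [← Finset.mul_sum, hw1, mul_one]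
  have hnk : ∑ j, n j ≤ k := by
    have h1 : ((∑ j, n j : ℕ) : ℝ) ≤ k := by
      rw [Nat.cast_sum, ← hkw]
      exact Finset.sum_le_sum (fun j _ => hn1 j)
    exact_mod_cast h1
  obtain ⟨m, hm⟩ : ∃ m, m = k - ∑ j, n j := ⟨_, rfl⟩
  have hm1 : ∑ j, n j + m = k := by omega
  have hm1r : ∑ j, (n j : ℝ) + m = k := by
    rw [← Nat.cast_sum]
    exact_mod_cast hm1
  have hmc : (m:ℝ) ≤ (d:ℝ) + 2 := by
    have h1 : (k:ℝ) ≤ ∑ j, ((n j : ℝ) + 1) := by
      calc (k:ℝ) = ∑ j, (k:ℝ) * w j := hkw.symm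
        _ ≤ _ := Finset.sum_le_sum (fun j _ => hn2 j)
    rw [Finset.sum_add_distrib, Finset.sum_const, Finset.card_univ, nsmul_eq_mul, mul_one] at h1
    have h2 : (Fintype.card J : ℝ) ≤ (d:ℝ) + 2 := by exact_mod_cast hcard
    linarith
  obtain ⟨N, hN⟩ : ∃ N : J → ℕ, N = fun j => n j + (if j = j₀ then m else 0) := ⟨_, rfl⟩
  have hNr : ∀ j, (N j : ℝ) = n j + (if j = j₀ then (m:ℝ) else 0) := by
    intro j
    rw [hN]
    push_cast
    rfl
  have hNsum : ∑ j, N j = k := by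
    rw [hN]
    rw [Finset.sum_add_distrib, Finset.sum_ite_eq' Finset.univ j₀ (fun _ => m),
      if_pos (Finset.mem_univ _)]
    exact hm1
  obtain ⟨ψ, hψ⟩ := h400_alloc N k hNsum
  refine ⟨fun i => cc (ψ i), ?_, ?_⟩
  · -- the error
    have habs : ∑ j, |(N j : ℝ) - k * w j| ≤ 2 * ((d:ℝ) + 2) := by
      have h1 : ∀ j, |(N j : ℝ) - k * w j| ≤ (k * w j - n j) + (if j = j₀ then (m:ℝ) else 0) := by
        intro j
        rw [hNr, abs_le]
        have h2 : (0:ℝ) ≤ (if j = j₀ then (m:ℝ) else 0) := by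
          split_ifs
          · exact Nat.cast_nonneg _
          · exact le_rfl
        have h3 := hn1 j
        constructor <;> linarith
      calc ∑ j, |(N j : ℝ) - k * w j|
          ≤ ∑ j, ((k * w j - n j) + (if j = j₀ then (m:ℝ) else 0)) :=
            Finset.sum_le_sum (fun j _ => h1 j)
        _ = 2 * m := by
            rw [Finset.sum_add_distrib, Finset.sum_sub_distrib, hkw,
              Finset.sum_ite_eq' Finset.univ j₀ (fun _ => (m:ℝ)), if_pos (Finset.mem_univ _)]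
            linarith
        _ ≤ 2 * ((d:ℝ) + 2) := by linarith
    rw [pi_norm_le_iff_of_nonneg (by positivity)]
    intro a
    have h4 : ((∑ i, x (cc (ψ i))) - (k:ℝ) • (∑ c, p c • x c)) a =
        ∑ j, ((N j : ℝ) - k * w j) * x (cc j) a := by
      rw [Pi.sub_apply, Finset.sum_apply, hψ (fun j => x (cc j) a), ← hwx, Pi.smul_apply,
        Finset.sum_apply, smul_eq_mul, Finset.mul_sum, ← Finset.sum_sub_distrib]
      apply Finset.sum_congr rfl
      intro j _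
      rw [Pi.smul_apply, smul_eq_mul]
      ring
    rw [h4]
    refine le_trans ?_ habs
    refine (norm_sum_le _ _).trans (Finset.sum_le_sum (fun j _ => ?_))
    rw [norm_mul, Real.norm_eq_abs]
    have h5 : ‖x (cc j) a‖ ≤ 1 := (norm_le_pi_norm _ a).trans (hx _)
    calc |(N j : ℝ) - k * w j| * ‖x (cc j) a‖ ≤ |(N j : ℝ) - k * w j| * 1 :=
          mul_le_mul_of_nonneg_left h5 (abs_nonneg _)
      _ = _ := mul_one _
  · -- the functional
    show (k:ℝ) * ∑ c, p c * g c ≤ ∑ i, g (cc (ψ i))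
    rw [hψ (fun j => g (cc j)), ← hwg, Finset.mul_sum]
    have h1 : ∑ j, (N j : ℝ) * g (cc j) = ∑ j, (n j : ℝ) * g (cc j) + m * g (cc j₀) := by
      have h2 : ∀ j, (N j : ℝ) * g (cc j) =
          (n j : ℝ) * g (cc j) + (if j = j₀ then (m:ℝ) * g (cc j) else 0) := by
        intro j
        rw [hNr]
        split_ifs <;> ring
      simp only [h2]
      rw [Finset.sum_add_distrib, Finset.sum_ite_eq' Finset.univ j₀ (fun j => (m:ℝ) * g (cc j)),
        if_pos (Finset.mem_univ _)]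
    rw [h1]
    have h3 : ∑ j, ((k:ℝ) * w j - n j) * g (cc j) ≤ ∑ j, ((k:ℝ) * w j - n j) * g (cc j₀) := by
      apply Finset.sum_le_sum
      intro j _
      exact mul_le_mul_of_nonneg_left (hj₀ j (Finset.mem_univ _)) (by linarith [hn1 j])
    rw [← Finset.sum_mul, Finset.sum_sub_distrib, hkw] at h3
    have h4 : (k:ℝ) - ∑ j, (n j : ℝ) = m := by linarith
    rw [h4] at h3
    have h5 : ∑ j, ((k:ℝ) * w j - n j) * g (cc j) =
        ∑ j, (k:ℝ) * (w j * g (cc j)) - ∑ j, (n j : ℝ) * g (cc j) := by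
      rw [← Finset.sum_sub_distrib]
      apply Finset.sum_congr rfl
      intro j _
      ring
    linarith

/-- random rounding with bounded error -/
theorem exists_rounding {d : ℕ} {ι : Type} [Fintype ι] [DecidableEq ι] (x : ι → (Fin d → ℝ))
    (hx : ∀ c, ‖x c‖ ≤ 1) (p : ι → ℝ) (hp : ∀ c, 0 ≤ p c) (hp1 : ∑ c, p c = 1) (k : ℕ) :
    ∃ (π : (Fin k → ι) → ℝ), (∀ φ, 0 ≤ π φ) ∧ (∑ φ, π φ = 1) ∧
      (∀ c, ∑ φ, π φ * ((Finset.univ.filter (fun i => φ i = c)).card : ℝ) = k * p c) ∧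
      (∀ φ, π φ ≠ 0 → ‖(∑ i, x (φ i)) - (k:ℝ) • (∑ c, p c • x c)‖ ≤ 2 * ((d:ℝ) + 2)) := by
  classical
  obtain ⟨A, hA⟩ : ∃ A : Set (Fin k → ι), A = {φ | ‖(∑ i, x (φ i)) -
    (k:ℝ) • (∑ c, p c • x c)‖ ≤ 2 * ((d:ℝ) + 2)} := ⟨_, rfl⟩
  have hmem : (fun c => (k:ℝ) * p c) ∈ convexHull ℝ (h400_N '' A) := by
    by_contra hcon
    have hfin : (h400_N '' A).Finite := (Set.toFinite A).image _
    obtain ⟨f, u, hf1, hf2⟩ := geometric_hahn_banach_closed_point (convex_convexHull ℝ (h400_N '' A))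
      (hfin.isClosed_convexHull ℝ) hcon
    obtain ⟨φ, hφ1, hφ2⟩ := h400_round x hx p hp hp1 k (fun c => f (Pi.single c 1))
    have h1 : f (h400_N φ) < u := by
      apply hf1
      apply subset_convexHull ℝ (h400_N '' A)
      refine ⟨φ, ?_, rfl⟩
      rw [hA]
      exact hφ1
    have h2 : f (h400_N φ) = ∑ i, f (Pi.single (φ i) 1) := by
      unfold h400_N
      rw [map_sum]
    have h3 : f (fun c => (k:ℝ) * p c) = (k:ℝ) * ∑ c, p c * f (Pi.single c 1) := by
      have h4 : (fun c => (k:ℝ) * p c) = ∑ c, ((k:ℝ) * p c) • (Pi.single c (1:ℝ) : ι → ℝ) := by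
        funext c
        rw [Finset.sum_apply]
        simp [Pi.single_apply]
      rw [h4, map_sum, Finset.mul_sum]
      apply Finset.sum_congr rfl
      intro c _
      rw [map_smul, smul_eq_mul]
      ring
    rw [h2] at h1
    rw [h3] at hf2
    linarith
  obtain ⟨T, hT, w, z, hw0, hw1, hz, hsum⟩ := mem_convexHull_iff_exists_fintype.mp hmem
  choose φ hφA hφz using hz
  refine ⟨fun φ' => ∑ t, if φ t = φ' then w t else 0, ?_, ?_, ?_, ?_⟩
  · intro φ'
    apply Finset.sum_nonneg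
    intro t _
    split_ifs
    · exact hw0 t
    · exact le_rfl
  · rw [Finset.sum_comm]
    simp only [Finset.sum_ite_eq, Finset.mem_univ, if_true]
    exact hw1
  · intro c
    have h1 := congrFun hsum c
    rw [Finset.sum_apply] at h1
    simp only [Finset.sum_mul, ite_mul, zero_mul]
    rw [Finset.sum_comm]
    simp only [Finset.sum_ite_eq, Finset.mem_univ, if_true]
    rw [← h1]
    apply Finset.sum_congr rfl
    intro t _
    rw [Pi.smul_apply, smul_eq_mul, ← hφz, h400_N_apply]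
  · intro φ' hφ'
    obtain ⟨t, -, ht⟩ := Finset.exists_ne_zero_of_sum_ne_zero hφ'
    have h1 : φ t = φ' := by
      by_contra h
      exact ht (if_neg h)
    have h2 := hφA t
    rw [h1, hA] at h2
    exact h2

end H843CM
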