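import Pool.Agent.Helper843.CM.Round
set_option autoImplicit false
open MeasureTheory Set
open scoped ENNReal

namespace H843CM

/-- the cell index -/
noncomputable def cell {d : ℕ} (k : ℕ) (y : Fin d → ℝ) : Fin d → Fin (2 * k + 1) :=
  fun j => Fin.ofNat (2 * k + 1) (⌊(k : ℝ) * y j⌋ + k).toNat

theorem measurable_cell {d : ℕ} (k : ℕ) : Measurable (cell (d := d) k) := by
  refine measurable_pi_lambda _ fun j => ?_
  have h1 : Measurable (fun y : Fin d → ℝ => ⌊(k : ℝ) * y j⌋) :=
    Int.measurable_floor.comp ((measurable_pi_apply j).const_mul _)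
  exact (measurable_from_top (f := fun m : ℤ => Fin.ofNat (2 * k + 1) (m + k).toNat)).comp h1

theorem cell_close {d : ℕ} {k : ℕ} (hk : 0 < k) {y z : Fin d → ℝ}
    (hy : y ∈ Metric.closedBall (0 : Fin d → ℝ) 1) (hz : z ∈ Metric.closedBall (0 : Fin d → ℝ) 1)
    (h : cell k y = cell k z) : ‖y - z‖ ≤ 1 / k := by
  have hk' : (0 : ℝ) < k := by exact_mod_cast hk
  rw [mem_closedBall_zero_iff] at hy hz
  have hb : ∀ w : Fin d → ℝ, ‖w‖ ≤ 1 → ∀ j, -(k : ℤ) ≤ ⌊(k : ℝ) * w j⌋ ∧ ⌊(k : ℝ) * w j⌋ ≤ k := by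
    intro w hw j
    have h1 : |w j| ≤ 1 := by
      have := norm_le_pi_norm w j
      rw [Real.norm_eq_abs] at this
      exact this.trans hw
    rw [abs_le] at h1
    constructor
    · rw [Int.le_floor]
      push_cast
      nlinarith [h1.1]
    · have : ((⌊(k : ℝ) * w j⌋ : ℤ) : ℝ) ≤ ((k : ℤ) : ℝ) := by
        refine (Int.floor_le _).trans ?_
        push_cast
        nlinarith [h1.2]
      exact_mod_cast this
  refine (pi_norm_le_iff_of_nonneg (by positivity)).2 fun j => ?_
  have h1 := congrArg Fin.val (congrFun h j)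
  simp only [cell, Fin.ofNat] at h1
  obtain ⟨a1, a2⟩ := hb y hy j
  obtain ⟨b1, b2⟩ := hb z hz j
  rw [Nat.mod_eq_of_lt (by omega), Nat.mod_eq_of_lt (by omega)] at h1
  have h2 : ⌊(k : ℝ) * y j⌋ = ⌊(k : ℝ) * z j⌋ := by omega
  have h3 := Int.abs_sub_lt_one_of_floor_eq_floor h2
  rw [← mul_sub, abs_mul, abs_of_pos hk'] at h3
  rw [Pi.sub_apply, Real.norm_eq_abs, le_div_iff₀ hk', mul_comm]
  exact h3.le

/-- `k` random vectors with average law `Q` and almost constant sum -/
theorem exists_sampling {d : ℕ} (Q : Measure (Fin d → ℝ)) [IsProbabilityMeasure Q]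
    (hQ : Q (Metric.closedBall 0 1)ᶜ = 0) (k : ℕ) (hk : 0 < k) :
    ∃ (P : Measure (Fin k → (Fin d → ℝ))), IsProbabilityMeasure P ∧
      (∑ i : Fin k, P.map (fun y => y i) = (k : ℝ≥0∞) • Q) ∧
      (∀ᵐ y ∂P, ‖(∑ i, y i) - (k:ℝ) • (∫ z, z ∂Q)‖ ≤ 2 * (d:ℝ) + 6) := by
  classical
  have hk' : (0 : ℝ) < k := by exact_mod_cast hk
  set A : (Fin d → Fin (2 * k + 1)) → Set (Fin d → ℝ) := fun c => cell k ⁻¹' {c} with hA
  have hAm : ∀ c, MeasurableSet (A c) := fun c => measurable_cell k (measurableSet_singleton c)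
  set p : (Fin d → Fin (2 * k + 1)) → ℝ := fun c => (Q (A c)).toReal with hp
  have hp0 : ∀ c, 0 ≤ p c := fun c => ENNReal.toReal_nonneg
  have hsumA : ∀ s : Set (Fin d → ℝ), MeasurableSet s → ∑ c, Q (A c ∩ s) = Q s := by
    intro s hs
    have h1 := sum_measure_preimage_singleton (μ := Q.restrict s) Finset.univ (f := cell k)
      (fun c _ => hAm c)
    rw [Finset.coe_univ, preimage_univ, Measure.restrict_apply_univ] at h1
    rw [← h1]
    refine Finset.sum_congr rfl fun c _ => ?_
    rw [Measure.restrict_apply (hAm c)]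
  have hp1 : ∑ c, p c = 1 := by
    simp only [hp]
    rw [← ENNReal.toReal_sum (fun c _ => measure_ne_top Q _)]
    have := hsumA univ MeasurableSet.univ
    simp only [inter_univ, measure_univ] at this
    rw [this, ENNReal.toReal_one]
  set x : (Fin d → Fin (2 * k + 1)) → (Fin d → ℝ) := fun c =>
    if h : (A c ∩ Metric.closedBall 0 1).Nonempty then h.some else 0 with hx
  have hxs : ∀ c (h : (A c ∩ Metric.closedBall 0 1).Nonempty),
      x c ∈ A c ∩ Metric.closedBall 0 1 := by
    intro c h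
    simp only [hx, dif_pos h]
    exact h.some_mem
  have hx1 : ∀ c, ‖x c‖ ≤ 1 := by
    intro c
    by_cases h : (A c ∩ Metric.closedBall 0 1).Nonempty
    · exact mem_closedBall_zero_iff.1 (hxs c h).2
    · simp only [hx, dif_neg h, norm_zero]
      exact zero_le_one
  have hxc : ∀ c y, y ∈ A c → y ∈ Metric.closedBall (0 : Fin d → ℝ) 1 → ‖y - x c‖ ≤ 1 / k := by
    intro c y h1 h2
    have h3 := hxs c ⟨y, h1, h2⟩
    refine cell_close hk h2 h3.2 ?_
    have e1 : cell k y = c := h1
    have e2 : cell k (x c) = c := h3.1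
    rw [e1, e2]
  obtain ⟨π, hπ0, hπ1, hπc, hπb⟩ := exists_rounding x hx1 p hp0 hp1 k
  set R : (Fin d → Fin (2 * k + 1)) → Measure (Fin d → ℝ) := fun c =>
    if Q (A c) = 0 then Q else ProbabilityTheory.cond Q (A c) with hR
  have hRp : ∀ c, IsProbabilityMeasure (R c) := by
    intro c
    by_cases h : Q (A c) = 0
    · simp only [hR, if_pos h]
      infer_instance
    · simp only [hR, if_neg h]
      exact ProbabilityTheory.cond_isProbabilityMeasure h
  have hRs : ∀ c (s : Set (Fin d → ℝ)), MeasurableSet s → Q (A c) * R c s = Q (A c ∩ s) := by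
    intro c s hs
    by_cases h : Q (A c) = 0
    · rw [h, zero_mul]
      exact (measure_mono_null inter_subset_left h).symm
    · simp only [hR, if_neg h]
      rw [ProbabilityTheory.cond_apply (hAm c), ← mul_assoc,
        ENNReal.mul_inv_cancel h (measure_ne_top Q _), one_mul]
  have hpos : ∀ φ, π φ ≠ 0 → ∀ i, Q (A (φ i)) ≠ 0 := by
    intro φ hφ i h0
    have h1 := hπc (φ i)
    have h2 : p (φ i) = 0 := by simp only [hp, h0, ENNReal.toReal_zero]
    rw [h2, mul_zero, Finset.sum_eq_zero_iff_of_nonneg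
      (fun ψ _ => mul_nonneg (hπ0 ψ) (Nat.cast_nonneg _))] at h1
    have h3 := h1 φ (Finset.mem_univ _)
    rcases mul_eq_zero.1 h3 with h4 | h4
    · exact hφ h4
    · rw [Nat.cast_eq_zero, Finset.card_eq_zero] at h4
      have : i ∈ Finset.univ.filter (fun j => φ j = φ i) := by simp
      rw [h4] at this
      exact absurd this (Finset.notMem_empty _)
  set P : Measure (Fin k → (Fin d → ℝ)) :=
    ∑ φ : Fin k → (Fin d → Fin (2 * k + 1)),
      ENNReal.ofReal (π φ) • Measure.pi (fun i => R (φ i)) with hP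
  have hPs : ∀ s : Set (Fin k → (Fin d → ℝ)),
      P s = ∑ φ, ENNReal.ofReal (π φ) * (Measure.pi (fun i => R (φ i))) s := by
    intro s
    rw [hP, Measure.finset_sum_apply]
    simp only [Measure.smul_apply, smul_eq_mul]
  refine ⟨P, ⟨?_⟩, ?_, ?_⟩
  · rw [hPs]
    have : ∀ φ : Fin k → (Fin d → Fin (2 * k + 1)),
        (Measure.pi (fun i => R (φ i))) univ = 1 := by
      intro φ
      haveI := fun i => hRp (φ i)
      exact measure_univ
    simp only [this, mul_one]
    rw [← ENNReal.ofReal_sum_of_nonneg (fun φ _ => hπ0 φ), hπ1, ENNReal.ofReal_one]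
  · ext s hs
    rw [Measure.finset_sum_apply, Measure.smul_apply, smul_eq_mul]
    have h1 : ∀ i : Fin k, (P.map (fun y => y i)) s =
        ∑ φ, ENNReal.ofReal (π φ) * R (φ i) s := by
      intro i
      rw [Measure.map_apply (measurable_pi_apply i) hs, hPs]
      refine Finset.sum_congr rfl fun φ _ => ?_
      congr 1
      haveI := fun i => hRp (φ i)
      have h2 := (measurePreserving_eval (fun i => R (φ i)) i).map_eq
      rw [← h2, Measure.map_apply (measurable_pi_apply i) hs]
    simp only [h1]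
    rw [Finset.sum_comm]
    have h2 : ∀ φ : Fin k → (Fin d → Fin (2 * k + 1)),
        ∑ i, ENNReal.ofReal (π φ) * R (φ i) s =
        ∑ c, ENNReal.ofReal (π φ * ((Finset.univ.filter (fun i => φ i = c)).card : ℝ)) * R c s := by
      intro φ
      have h3 : ∑ i, ENNReal.ofReal (π φ) * R (φ i) s =
          ∑ c, ∑ i ∈ Finset.univ.filter (fun i => φ i = c), ENNReal.ofReal (π φ) * R (φ i) s :=
        (Finset.sum_fiberwise Finset.univ φ _).symm
      rw [h3]
      refine Finset.sum_congr rfl fun c _ => ?_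
      rw [Finset.sum_congr rfl (fun i hi => by rw [(Finset.mem_filter.1 hi).2]),
        Finset.sum_const, nsmul_eq_mul, ENNReal.ofReal_mul (hπ0 φ), ENNReal.ofReal_natCast]
      ring
    simp only [h2]
    rw [Finset.sum_comm]
    have h4 : ∀ c, ∑ φ : Fin k → (Fin d → Fin (2 * k + 1)),
        ENNReal.ofReal (π φ * ((Finset.univ.filter (fun i => φ i = c)).card : ℝ)) * R c s =
        (k : ℝ≥0∞) * Q (A c ∩ s) := by
      intro c
      rw [← Finset.sum_mul, ← ENNReal.ofReal_sum_of_nonneg
        (fun φ _ => mul_nonneg (hπ0 φ) (Nat.cast_nonneg _)), hπc, ENNReal.ofReal_mul (by positivity),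
        ENNReal.ofReal_natCast, mul_assoc]
      simp only [hp]
      rw [ENNReal.ofReal_toReal (measure_ne_top Q _), hRs c s hs]
    simp only [h4]
    rw [← Finset.mul_sum, hsumA s hs]
  · -- the bound
    have hQae : ∀ᵐ z ∂Q, z ∈ Metric.closedBall (0 : Fin d → ℝ) 1 := by
      rw [ae_iff]
      exact hQ
    have hmean : ‖(∑ c, p c • x c) - ∫ z, z ∂Q‖ ≤ 1 / k := by
      have e1 : ∑ c, p c • x c = ∫ z, x (cell k z) ∂Q := by
        have h1 : ∫ z, x (cell k z) ∂Q = ∫ c, x c ∂(Q.map (cell k)) :=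
          (integral_map (measurable_cell k).aemeasurable
            (Measurable.of_discrete.aestronglyMeasurable)).symm
        haveI : IsFiniteMeasure (Q.map (cell k)) := by infer_instance
        rw [h1, integral_fintype (Integrable.of_finite)]
        refine Finset.sum_congr rfl fun c _ => ?_
        congr 1
        rw [measureReal_def, Measure.map_apply (measurable_cell k) (measurableSet_singleton c)]
      have hm1 : AEStronglyMeasurable (fun z => x (cell k z)) Q :=
        ((Measurable.of_discrete (f := x)).comp (measurable_cell k)).aestronglyMeasurable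
      have i1 : Integrable (fun z => x (cell k z)) Q :=
        Integrable.of_bound hm1 1 (Filter.Eventually.of_forall fun z => hx1 _)
      have i2 : Integrable (fun z : Fin d → ℝ => z) Q :=
        Integrable.of_bound measurable_id.aestronglyMeasurable 1
          (hQae.mono fun z hz => mem_closedBall_zero_iff.1 hz)
      rw [e1, ← integral_sub i1 i2]
      have h5 : ∀ᵐ z ∂Q, ‖x (cell k z) - z‖ ≤ 1 / k := by
        filter_upwards [hQae] with z hz
        rw [norm_sub_rev]
        exact hxc _ z rfl hz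
      have h6 := norm_integral_le_of_norm_le_const h5
      simpa using h6
    have hk1 : (k : ℝ) * (1 / k) = 1 := by field_simp
    rw [ae_iff, hPs]
    refine Finset.sum_eq_zero fun φ _ => ?_
    by_cases hφ : π φ = 0
    · rw [hφ, ENNReal.ofReal_zero, zero_mul]
    · have h7 : ∀ᵐ y ∂(Measure.pi (fun i => R (φ i))), ∀ i,
          y i ∈ A (φ i) ∧ y i ∈ Metric.closedBall (0 : Fin d → ℝ) 1 := by
        haveI := fun i => hRp (φ i)
        rw [eventually_countable_forall]
        intro i
        have h8 : ∀ᵐ z ∂(R (φ i)), z ∈ A (φ i) ∧ z ∈ Metric.closedBall (0 : Fin d → ℝ) 1 := by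
          simp only [hR, if_neg (hpos φ hφ i)]
          refine (ProbabilityTheory.ae_cond_mem (hAm _)).and ?_
          exact (ProbabilityTheory.cond_absolutelyContinuous (μ := Q)).ae_le hQae
        exact (measurePreserving_eval (fun i => R (φ i)) i).quasiMeasurePreserving.ae h8
      have h9 : ∀ᵐ y ∂(Measure.pi (fun i => R (φ i))),
          ‖(∑ i, y i) - (k:ℝ) • (∫ z, z ∂Q)‖ ≤ 2 * (d:ℝ) + 6 := by
        filter_upwards [h7] with y hy
        have b1 : ‖(∑ i, y i) - ∑ i, x (φ i)‖ ≤ 1 := by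
          rw [← Finset.sum_sub_distrib]
          refine (norm_sum_le _ _).trans ?_
          calc ∑ i : Fin k, ‖y i - x (φ i)‖ ≤ ∑ i : Fin k, (1 / (k:ℝ)) :=
                Finset.sum_le_sum fun i _ => hxc _ _ (hy i).1 (hy i).2
            _ = 1 := by
                rw [Finset.sum_const, Finset.card_univ, Fintype.card_fin, nsmul_eq_mul, hk1]
        have b2 := hπb φ hφ
        have b3 : ‖(k:ℝ) • (∑ c, p c • x c) - (k:ℝ) • (∫ z, z ∂Q)‖ ≤ 1 := by
          rw [← smul_sub, norm_smul, Real.norm_eq_abs, abs_of_pos hk', ← hk1]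
          exact mul_le_mul_of_nonneg_left hmean hk'.le
        calc ‖(∑ i, y i) - (k:ℝ) • (∫ z, z ∂Q)‖
            = ‖((∑ i, y i) - ∑ i, x (φ i)) + ((∑ i, x (φ i)) - (k:ℝ) • (∑ c, p c • x c)) +
              ((k:ℝ) • (∑ c, p c • x c) - (k:ℝ) • (∫ z, z ∂Q))‖ := by
                congr 1
                abel
          _ ≤ 1 + 2 * ((d:ℝ) + 2) + 1 := by
                refine (norm_add_le _ _).trans (add_le_add ?_ b3)
                exact (norm_add_le _ _).trans (add_le_add b1 b2)
          _ = 2 * (d:ℝ) + 6 := by ring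
      rw [ae_iff] at h9
      rw [h9, mul_zero]

end H843CM
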